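import Pool.Agent.Gen.F5.X123CCDm1.S000
import Pool.Agent.Gen.F5.X123CCDm1.S001

set_option autoImplicit false
set_option maxRecDepth 100000

namespace Pool.Agent.Gen.F5.X123CCDm1

open Pool.Agent.Helper72.F5

def n0 : Cl (O (nat_lit 1)) (R (nat_lit 131281))
    (p (nat_lit 0x119) (nat_lit 1) (p (nat_lit 0xb0014) (nat_lit 0) (p (nat_lit 0xb000c) (nat_lit 0) (p (nat_lit 0x200004) (nat_lit 1) (p (nat_lit 0xc9) (nat_lit 0) (p (nat_lit 0x89) (nat_lit 1) (p (nat_lit 0x109) (nat_lit 1) (p (nat_lit 0x101) (nat_lit 0) (p (nat_lit 0x111) (nat_lit 0) (p (nat_lit 0xd1) (nat_lit 1) (p (nat_lit 0x81) (nat_lit 0) (p (nat_lit 0x41) (nat_lit 1) (p (nat_lit 0x9088787069a) (nat_lit 0) (p (nat_lit 0x8878706861a) (nat_lit 0) (p (nat_lit 0x800080686058a) (nat_lit 0) (p (nat_lit 0x706058502) (nat_lit 0) (p (nat_lit 0x605850482) (nat_lit 0) (p (nat_lit 0x160014) (nat_lit 0) (p (nat_lit 0x16000c)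 (nat_lit 0) (p (nat_lit 0x68512) (nat_lit 0) (p (nat_lit 0x58492) (nat_lit 0) (p (nat_lit 0x48412) (nat_lit 0) (p (nat_lit 0x50312) (nat_lit 0) (p (nat_lit 0x40292) (nat_lit 0) (p (nat_lit 0x30212) (nat_lit 0) (p (nat_lit 0x38112) (nat_lit 0) (p (nat_lit 0x28092) (nat_lit 0) (p (nat_lit 0x18012) (nat_lit 0) pn)))))))))))))))))))))))))))) :=
  Cl.node (nat_lit 0xc1) (nat_lit 2) (by decide +kernel) (ClAll.succ (ClAll.succ ClAll.zero s56) s57)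

def n1 : Cl (O (nat_lit 1)) (R (nat_lit 131281))
    (p (nat_lit 0xb0014) (nat_lit 0) (p (nat_lit 0xb000c) (nat_lit 0) (p (nat_lit 0x200004) (nat_lit 1) (p (nat_lit 0x109) (nat_lit 0) (p (nat_lit 0x89) (nat_lit 1) (p (nat_lit 0xc9) (nat_lit 1) (p (nat_lit 0xc1) (nat_lit 0) (p (nat_lit 0x119) (nat_lit 1) (p (nat_lit 0xd1) (nat_lit 0) (p (nat_lit 0x81) (nat_lit 0) (p (nat_lit 0x41) (nat_lit 1) (p (nat_lit 0x9088787069a) (nat_lit 0) (p (nat_lit 0x8878706861a) (nat_lit 0) (p (nat_lit 0x800080686058a) (nat_lit 0) (p (nat_lit 0x706058502) (nat_lit 0) (p (nat_lit 0x605850482) (nat_lit 0) (p (nat_lit 0x160014) (nat_lit 0) (p (nat_lit 0x16000c) (nat_lit 0) (p (nat_lit 0x68512) (nat_lit 0) (p (nat_lit 0x58492) (nat_lit 0) (p (nat_lit 0x48412) (nat_lit 0) (p (nat_lit 0x50312) (nat_lit 0) (p (nat_lit 0x40292) (nat_lit 0) (p (nat_lit 0x30212) (nat_lit 0) (p (nat_lit 0x38112) (nat_lit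 0) (p (nat_lit 0x28092) (nat_lit 0) (p (nat_lit 0x18012) (nat_lit 0) pn))))))))))))))))))))))))))) :=
  Cl.node (nat_lit 0x111) (nat_lit 2) (by decide +kernel) (ClAll.succ (ClAll.succ ClAll.zero s33) s34)

def n2 : Cl (O (nat_lit 1)) (R (nat_lit 131281))
    (p (nat_lit 0xb0014) (nat_lit 0) (p (nat_lit 0xb000c) (nat_lit 0) (p (nat_lit 0x200004) (nat_lit 1) (p (nat_lit 0xc9) (nat_lit 0) (p (nat_lit 0x89) (nat_lit 1) (p (nat_lit 0x109) (nat_lit 1) (p (nat_lit 0x101) (nat_lit 0) (p (nat_lit 0x111) (nat_lit 0) (p (nat_lit 0xd1) (nat_lit 1) (p (nat_lit 0x81) (nat_lit 0) (p (nat_lit 0x41) (nat_lit 1) (p (nat_lit 0x9088787069a) (nat_lit 0) (p (nat_lit 0x8878706861a) (nat_lit 0) (p (nat_lit 0x800080686058a) (nat_lit 0) (p (nat_lit 0x706058502) (nat_lit 0) (p (nat_lit 0x605850482) (nat_lit 0) (p (nat_lit 0x160014) (nat_lit 0) (p (nat_lit 0x16000c) (nat_lit 0) (p (nat_lit 0x68512) (nat_lit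 0) (p (nat_lit 0x58492) (nat_lit 0) (p (nat_lit 0x48412) (nat_lit 0) (p (nat_lit 0x50312) (nat_lit 0) (p (nat_lit 0x40292) (nat_lit 0) (p (nat_lit 0x30212) (nat_lit 0) (p (nat_lit 0x38112) (nat_lit 0) (p (nat_lit 0x28092) (nat_lit 0) (p (nat_lit 0x18012) (nat_lit 0) pn))))))))))))))))))))))))))) :=
  Cl.node (nat_lit 0x119) (nat_lit 2) (by decide +kernel) (ClAll.succ (ClAll.succ ClAll.zero s55) n0)

def n3 : Cl (O (nat_lit 1)) (R (nat_lit 131281))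
    (p (nat_lit 0x119) (nat_lit 1) (p (nat_lit 0xb0014) (nat_lit 0) (p (nat_lit 0xb000c) (nat_lit 0) (p (nat_lit 0x200004) (nat_lit 1) (p (nat_lit 0xc9) (nat_lit 0) (p (nat_lit 0x89) (nat_lit 1) (p (nat_lit 0x101) (nat_lit 1) (p (nat_lit 0x111) (nat_lit 0) (p (nat_lit 0xd1) (nat_lit 1) (p (nat_lit 0x81) (nat_lit 0) (p (nat_lit 0x41) (nat_lit 1) (p (nat_lit 0x9088787069a) (nat_lit 0) (p (nat_lit 0x8878706861a) (nat_lit 0) (p (nat_lit 0x800080686058a) (nat_lit 0) (p (nat_lit 0x706058502) (nat_lit 0) (p (nat_lit 0x605850482) (nat_lit 0) (p (nat_lit 0x160014) (nat_lit 0) (p (nat_lit 0x16000c) (nat_lit 0) (p (nat_lit 0x68512) (nat_lit 0) (p (nat_lit 0x58492) (nat_lit 0) (p (nat_lit 0x48412) (nat_lit 0) (p (nat_lit 0x50312) (nat_lit 0) (p (nat_lit 0x40292) (nat_lit 0) (p (nat_lit 0x30212) (nat_lit 0) (p (nat_lit 0x38112) (nat_lit 0) (p (nat_lit 0x28092) (nat_lit 0) (p (nat_lit 0x18012)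 (nat_lit 0) pn))))))))))))))))))))))))))) :=
  Cl.node (nat_lit 0xc1) (nat_lit 2) (by decide +kernel) (ClAll.succ (ClAll.succ ClAll.zero s65) s66)

def n4 : Cl (O (nat_lit 1)) (R (nat_lit 131281))
    (p (nat_lit 0xb000c) (nat_lit 0) (p (nat_lit 0x200004) (nat_lit 1) (p (nat_lit 0x109) (nat_lit 0) (p (nat_lit 0x89) (nat_lit 1) (p (nat_lit 0xc9) (nat_lit 1) (p (nat_lit 0xc1) (nat_lit 0) (p (nat_lit 0x119) (nat_lit 1) (p (nat_lit 0xd1) (nat_lit 0) (p (nat_lit 0x81) (nat_lit 0) (p (nat_lit 0x41) (nat_lit 1) (p (nat_lit 0x9088787069a) (nat_lit 0) (p (nat_lit 0x8878706861a) (nat_lit 0) (p (nat_lit 0x800080686058a) (nat_lit 0) (p (nat_lit 0x706058502) (nat_lit 0) (p (nat_lit 0x605850482) (nat_lit 0) (p (nat_lit 0x160014) (nat_lit 0) (p (nat_lit 0x16000c) (nat_lit 0) (p (nat_lit 0x68512) (nat_lit 0) (p (nat_lit 0x58492) (nat_lit 0) (p (nat_lit 0x48412) (nat_lit 0) (p (nat_lit 0x50312)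 (nat_lit 0) (p (nat_lit 0x40292) (nat_lit 0) (p (nat_lit 0x30212) (nat_lit 0) (p (nat_lit 0x38112) (nat_lit 0) (p (nat_lit 0x28092) (nat_lit 0) (p (nat_lit 0x18012) (nat_lit 0) pn)))))))))))))))))))))))))) :=
  Cl.node (nat_lit 0xb0014) (nat_lit 2) (by decide +kernel) (ClAll.succ (ClAll.succ ClAll.zero n1) s35)

def n5 : Cl (O (nat_lit 1)) (R (nat_lit 131281))
    (p (nat_lit 0xb0014) (nat_lit 0) (p (nat_lit 0xb000c) (nat_lit 0) (p (nat_lit 0x200004) (nat_lit 1) (p (nat_lit 0x89) (nat_lit 0) (p (nat_lit 0x101) (nat_lit 1) (p (nat_lit 0xc1) (nat_lit 1) (p (nat_lit 0x119) (nat_lit 1) (p (nat_lit 0xd1) (nat_lit 0) (p (nat_lit 0x81) (nat_lit 0) (p (nat_lit 0x41) (nat_lit 1) (p (nat_lit 0x9088787069a) (nat_lit 0) (p (nat_lit 0x8878706861a) (nat_lit 0) (p (nat_lit 0x800080686058a) (nat_lit 0) (p (nat_lit 0x706058502) (nat_lit 0) (p (nat_lit 0x605850482) (nat_lit 0) (p (nat_lit 0x160014)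 (nat_lit 0) (p (nat_lit 0x16000c) (nat_lit 0) (p (nat_lit 0x68512) (nat_lit 0) (p (nat_lit 0x58492) (nat_lit 0) (p (nat_lit 0x48412) (nat_lit 0) (p (nat_lit 0x50312) (nat_lit 0) (p (nat_lit 0x40292) (nat_lit 0) (p (nat_lit 0x30212) (nat_lit 0) (p (nat_lit 0x38112) (nat_lit 0) (p (nat_lit 0x28092) (nat_lit 0) (p (nat_lit 0x18012) (nat_lit 0) pn)))))))))))))))))))))))))) :=
  Cl.node (nat_lit 0x81) (nat_lit 2) (by decide +kernel) (ClAll.succ (ClAll.succ ClAll.zero s43) s44)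

def n6 : Cl (O (nat_lit 1)) (R (nat_lit 131281))
    (p (nat_lit 0xb0014) (nat_lit 0) (p (nat_lit 0xb000c) (nat_lit 0) (p (nat_lit 0x200004) (nat_lit 1) (p (nat_lit 0x89) (nat_lit 1) (p (nat_lit 0x101) (nat_lit 1) (p (nat_lit 0xc1) (nat_lit 1) (p (nat_lit 0x119) (nat_lit 1) (p (nat_lit 0xd1) (nat_lit 0) (p (nat_lit 0x81) (nat_lit 0) (p (nat_lit 0x41) (nat_lit 1) (p (nat_lit 0x9088787069a) (nat_lit 0) (p (nat_lit 0x8878706861a) (nat_lit 0) (p (nat_lit 0x800080686058a) (nat_lit 0) (p (nat_lit 0x706058502) (nat_lit 0) (p (nat_lit 0x605850482) (nat_lit 0) (p (nat_lit 0x160014) (nat_lit 0) (p (nat_lit 0x16000c) (nat_lit 0) (p (nat_lit 0x68512) (nat_lit 0) (p (nat_lit 0x58492) (nat_lit 0) (p (nat_lit 0x48412) (nat_lit 0) (p (nat_lit 0x50312) (nat_lit 0) (p (nat_lit 0x40292) (nat_lit 0) (p (nat_lit 0x30212) (nat_lit 0) (p (nat_lit 0x38112) (nat_lit 0) (p (nat_lit 0x28092) (nat_lit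 0) (p (nat_lit 0x18012) (nat_lit 0) pn)))))))))))))))))))))))))) :=
  Cl.node (nat_lit 0xc9) (nat_lit 2) (by decide +kernel) (ClAll.succ (ClAll.succ ClAll.zero s48) s49)

def n7 : Cl (O (nat_lit 1)) (R (nat_lit 131281))
    (p (nat_lit 0xb000c) (nat_lit 0) (p (nat_lit 0x200004) (nat_lit 1) (p (nat_lit 0xc9) (nat_lit 0) (p (nat_lit 0x89) (nat_lit 1) (p (nat_lit 0x109) (nat_lit 1) (p (nat_lit 0x101) (nat_lit 0) (p (nat_lit 0x111) (nat_lit 0) (p (nat_lit 0xd1) (nat_lit 1) (p (nat_lit 0x81) (nat_lit 0) (p (nat_lit 0x41) (nat_lit 1) (p (nat_lit 0x9088787069a) (nat_lit 0) (p (nat_lit 0x8878706861a) (nat_lit 0) (p (nat_lit 0x800080686058a) (nat_lit 0) (p (nat_lit 0x706058502) (nat_lit 0) (p (nat_lit 0x605850482) (nat_lit 0) (p (nat_lit 0x160014) (nat_lit 0) (p (nat_lit 0x16000c) (nat_lit 0) (p (nat_lit 0x68512) (nat_lit 0) (p (nat_lit 0x58492) (nat_lit 0) (p (nat_lit 0x48412) (nat_lit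 0) (p (nat_lit 0x50312) (nat_lit 0) (p (nat_lit 0x40292) (nat_lit 0) (p (nat_lit 0x30212) (nat_lit 0) (p (nat_lit 0x38112) (nat_lit 0) (p (nat_lit 0x28092) (nat_lit 0) (p (nat_lit 0x18012) (nat_lit 0) pn)))))))))))))))))))))))))) :=
  Cl.node (nat_lit 0xb0014) (nat_lit 2) (by decide +kernel) (ClAll.succ (ClAll.succ ClAll.zero n2) s58)

def n8 : Cl (O (nat_lit 1)) (R (nat_lit 131281))
    (p (nat_lit 0xb0014) (nat_lit 0) (p (nat_lit 0xb000c) (nat_lit 0) (p (nat_lit 0x200004) (nat_lit 1) (p (nat_lit 0xc9) (nat_lit 0) (p (nat_lit 0x89) (nat_lit 1) (p (nat_lit 0x101) (nat_lit 1) (p (nat_lit 0x111) (nat_lit 0) (p (nat_lit 0xd1) (nat_lit 1) (p (nat_lit 0x81) (nat_lit 0) (p (nat_lit 0x41) (nat_lit 1) (p (nat_lit 0x9088787069a) (nat_lit 0) (p (nat_lit 0x8878706861a) (nat_lit 0) (p (nat_lit 0x800080686058a) (nat_lit 0) (p (nat_lit 0x706058502) (nat_lit 0) (p (nat_lit 0x605850482) (nat_lit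 0) (p (nat_lit 0x160014) (nat_lit 0) (p (nat_lit 0x16000c) (nat_lit 0) (p (nat_lit 0x68512) (nat_lit 0) (p (nat_lit 0x58492) (nat_lit 0) (p (nat_lit 0x48412) (nat_lit 0) (p (nat_lit 0x50312) (nat_lit 0) (p (nat_lit 0x40292) (nat_lit 0) (p (nat_lit 0x30212) (nat_lit 0) (p (nat_lit 0x38112) (nat_lit 0) (p (nat_lit 0x28092) (nat_lit 0) (p (nat_lit 0x18012) (nat_lit 0) pn)))))))))))))))))))))))))) :=
  Cl.node (nat_lit 0x119) (nat_lit 2) (by decide +kernel) (ClAll.succ (ClAll.succ ClAll.zero s64) n3)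

def n9 : Cl (O (nat_lit 1)) (R (nat_lit 131281))
    (p (nat_lit 0x200004) (nat_lit 1) (p (nat_lit 0x109) (nat_lit 0) (p (nat_lit 0x89) (nat_lit 1) (p (nat_lit 0xc9) (nat_lit 1) (p (nat_lit 0xc1) (nat_lit 0) (p (nat_lit 0x119) (nat_lit 1) (p (nat_lit 0xd1) (nat_lit 0) (p (nat_lit 0x81) (nat_lit 0) (p (nat_lit 0x41) (nat_lit 1) (p (nat_lit 0x9088787069a) (nat_lit 0) (p (nat_lit 0x8878706861a) (nat_lit 0) (p (nat_lit 0x800080686058a) (nat_lit 0) (p (nat_lit 0x706058502) (nat_lit 0) (p (nat_lit 0x605850482) (nat_lit 0) (p (nat_lit 0x160014) (nat_lit 0) (p (nat_lit 0x16000c) (nat_lit 0) (p (nat_lit 0x68512) (nat_lit 0) (p (nat_lit 0x58492) (nat_lit 0) (p (nat_lit 0x48412) (nat_lit 0) (p (nat_lit 0x50312) (nat_lit 0) (p (nat_lit 0x40292) (nat_lit 0) (p (nat_lit 0x30212) (nat_lit 0) (p (nat_lit 0x38112) (nat_lit 0) (p (nat_lit 0x28092) (nat_lit 0) (p (nat_lit 0x18012) (nat_lit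 0) pn))))))))))))))))))))))))) :=
  Cl.node (nat_lit 0xb000c) (nat_lit 2) (by decide +kernel) (ClAll.succ (ClAll.succ ClAll.zero n4) s36)

def n10 : Cl (O (nat_lit 1)) (R (nat_lit 131281))
    (p (nat_lit 0xb000c) (nat_lit 0) (p (nat_lit 0x200004) (nat_lit 1) (p (nat_lit 0x89) (nat_lit 0) (p (nat_lit 0x101) (nat_lit 1) (p (nat_lit 0xc1) (nat_lit 1) (p (nat_lit 0x119) (nat_lit 1) (p (nat_lit 0xd1) (nat_lit 0) (p (nat_lit 0x81) (nat_lit 0) (p (nat_lit 0x41) (nat_lit 1) (p (nat_lit 0x9088787069a) (nat_lit 0) (p (nat_lit 0x8878706861a) (nat_lit 0) (p (nat_lit 0x800080686058a) (nat_lit 0) (p (nat_lit 0x706058502) (nat_lit 0) (p (nat_lit 0x605850482) (nat_lit 0) (p (nat_lit 0x160014) (nat_lit 0) (p (nat_lit 0x16000c) (nat_lit 0) (p (nat_lit 0x68512) (nat_lit 0) (p (nat_lit 0x58492) (nat_lit 0) (p (nat_lit 0x48412) (nat_lit 0) (p (nat_lit 0x50312) (nat_lit 0) (p (nat_lit 0x40292)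 (nat_lit 0) (p (nat_lit 0x30212) (nat_lit 0) (p (nat_lit 0x38112) (nat_lit 0) (p (nat_lit 0x28092) (nat_lit 0) (p (nat_lit 0x18012) (nat_lit 0) pn))))))))))))))))))))))))) :=
  Cl.node (nat_lit 0xb0014) (nat_lit 2) (by decide +kernel) (ClAll.succ (ClAll.succ ClAll.zero n5) s45)

def n11 : Cl (O (nat_lit 1)) (R (nat_lit 131281))
    (p (nat_lit 0xb000c) (nat_lit 0) (p (nat_lit 0x200004) (nat_lit 1) (p (nat_lit 0x89) (nat_lit 1) (p (nat_lit 0x101) (nat_lit 1) (p (nat_lit 0xc1) (nat_lit 1) (p (nat_lit 0x119) (nat_lit 1) (p (nat_lit 0xd1) (nat_lit 0) (p (nat_lit 0x81) (nat_lit 0) (p (nat_lit 0x41) (nat_lit 1) (p (nat_lit 0x9088787069a) (nat_lit 0) (p (nat_lit 0x8878706861a) (nat_lit 0) (p (nat_lit 0x800080686058a) (nat_lit 0) (p (nat_lit 0x706058502) (nat_lit 0) (p (nat_lit 0x605850482) (nat_lit 0) (p (nat_lit 0x160014) (nat_lit 0) (p (nat_lit 0x16000c) (nat_lit 0) (p (nat_lit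 0x68512) (nat_lit 0) (p (nat_lit 0x58492) (nat_lit 0) (p (nat_lit 0x48412) (nat_lit 0) (p (nat_lit 0x50312) (nat_lit 0) (p (nat_lit 0x40292) (nat_lit 0) (p (nat_lit 0x30212) (nat_lit 0) (p (nat_lit 0x38112) (nat_lit 0) (p (nat_lit 0x28092) (nat_lit 0) (p (nat_lit 0x18012) (nat_lit 0) pn))))))))))))))))))))))))) :=
  Cl.node (nat_lit 0xb0014) (nat_lit 2) (by decide +kernel) (ClAll.succ (ClAll.succ ClAll.zero n6) s50)

def n12 : Cl (O (nat_lit 1)) (R (nat_lit 131281))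
    (p (nat_lit 0x200004) (nat_lit 1) (p (nat_lit 0xc9) (nat_lit 0) (p (nat_lit 0x89) (nat_lit 1) (p (nat_lit 0x109) (nat_lit 1) (p (nat_lit 0x101) (nat_lit 0) (p (nat_lit 0x111) (nat_lit 0) (p (nat_lit 0xd1) (nat_lit 1) (p (nat_lit 0x81) (nat_lit 0) (p (nat_lit 0x41) (nat_lit 1) (p (nat_lit 0x9088787069a) (nat_lit 0) (p (nat_lit 0x8878706861a) (nat_lit 0) (p (nat_lit 0x800080686058a) (nat_lit 0) (p (nat_lit 0x706058502) (nat_lit 0) (p (nat_lit 0x605850482) (nat_lit 0) (p (nat_lit 0x160014) (nat_lit 0) (p (nat_lit 0x16000c) (nat_lit 0) (p (nat_lit 0x68512) (nat_lit 0) (p (nat_lit 0x58492) (nat_lit 0) (p (nat_lit 0x48412) (nat_lit 0) (p (nat_lit 0x50312) (nat_lit 0) (p (nat_lit 0x40292) (nat_lit 0) (p (nat_lit 0x30212) (nat_lit 0) (p (nat_lit 0x38112) (nat_lit 0) (p (nat_lit 0x28092) (nat_lit 0) (p (nat_lit 0x18012) (nat_lit 0) pn))))))))))))))))))))))))) :=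
  Cl.node (nat_lit 0xb000c) (nat_lit 2) (by decide +kernel) (ClAll.succ (ClAll.succ ClAll.zero n7) s59)

def n13 : Cl (O (nat_lit 1)) (R (nat_lit 131281))
    (p (nat_lit 0xb000c) (nat_lit 0) (p (nat_lit 0x200004) (nat_lit 1) (p (nat_lit 0xc9) (nat_lit 0) (p (nat_lit 0x89) (nat_lit 1) (p (nat_lit 0x101) (nat_lit 1) (p (nat_lit 0x111) (nat_lit 0) (p (nat_lit 0xd1) (nat_lit 1) (p (nat_lit 0x81) (nat_lit 0) (p (nat_lit 0x41) (nat_lit 1) (p (nat_lit 0x9088787069a) (nat_lit 0) (p (nat_lit 0x8878706861a) (nat_lit 0) (p (nat_lit 0x800080686058a) (nat_lit 0) (p (nat_lit 0x706058502) (nat_lit 0) (p (nat_lit 0x605850482) (nat_lit 0) (p (nat_lit 0x160014) (nat_lit 0) (p (nat_lit 0x16000c) (nat_lit 0) (p (nat_lit 0x68512) (nat_lit 0) (p (nat_lit 0x58492) (nat_lit 0) (p (nat_lit 0x48412) (nat_lit 0) (p (nat_lit 0x50312) (nat_lit 0) (p (nat_lit 0x40292) (nat_lit 0) (p (nat_lit 0x30212)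 (nat_lit 0) (p (nat_lit 0x38112) (nat_lit 0) (p (nat_lit 0x28092) (nat_lit 0) (p (nat_lit 0x18012) (nat_lit 0) pn))))))))))))))))))))))))) :=
  Cl.node (nat_lit 0xb0014) (nat_lit 2) (by decide +kernel) (ClAll.succ (ClAll.succ ClAll.zero n8) s67)

def n14 : Cl (O (nat_lit 1)) (R (nat_lit 131281))
    (p (nat_lit 0x109) (nat_lit 0) (p (nat_lit 0x89) (nat_lit 1) (p (nat_lit 0xc9) (nat_lit 1) (p (nat_lit 0xc1) (nat_lit 0) (p (nat_lit 0x119) (nat_lit 1) (p (nat_lit 0xd1) (nat_lit 0) (p (nat_lit 0x81) (nat_lit 0) (p (nat_lit 0x41) (nat_lit 1) (p (nat_lit 0x9088787069a) (nat_lit 0) (p (nat_lit 0x8878706861a) (nat_lit 0) (p (nat_lit 0x800080686058a) (nat_lit 0) (p (nat_lit 0x706058502) (nat_lit 0) (p (nat_lit 0x605850482) (nat_lit 0) (p (nat_lit 0x160014) (nat_lit 0) (p (nat_lit 0x16000c) (nat_lit 0) (p (nat_lit 0x68512) (nat_lit 0) (p (nat_lit 0x58492) (nat_lit 0) (p (nat_lit 0x48412)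 (nat_lit 0) (p (nat_lit 0x50312) (nat_lit 0) (p (nat_lit 0x40292) (nat_lit 0) (p (nat_lit 0x30212) (nat_lit 0) (p (nat_lit 0x38112) (nat_lit 0) (p (nat_lit 0x28092) (nat_lit 0) (p (nat_lit 0x18012) (nat_lit 0) pn)))))))))))))))))))))))) :=
  Cl.node (nat_lit 0x200004) (nat_lit 2) (by decide +kernel) (ClAll.succ (ClAll.succ ClAll.zero s32) n9)

def n15 : Cl (O (nat_lit 1)) (R (nat_lit 131281))
    (p (nat_lit 0x109) (nat_lit 0) (p (nat_lit 0x89) (nat_lit 1) (p (nat_lit 0x101) (nat_lit 0) (p (nat_lit 0xc1) (nat_lit 1) (p (nat_lit 0x119) (nat_lit 1) (p (nat_lit 0xd1) (nat_lit 0) (p (nat_lit 0x81) (nat_lit 0) (p (nat_lit 0x41) (nat_lit 1) (p (nat_lit 0x9088787069a) (nat_lit 0) (p (nat_lit 0x8878706861a) (nat_lit 0) (p (nat_lit 0x800080686058a) (nat_lit 0) (p (nat_lit 0x706058502) (nat_lit 0) (p (nat_lit 0x605850482) (nat_lit 0) (p (nat_lit 0x160014) (nat_lit 0) (p (nat_lit 0x16000c)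 (nat_lit 0) (p (nat_lit 0x68512) (nat_lit 0) (p (nat_lit 0x58492) (nat_lit 0) (p (nat_lit 0x48412) (nat_lit 0) (p (nat_lit 0x50312) (nat_lit 0) (p (nat_lit 0x40292) (nat_lit 0) (p (nat_lit 0x30212) (nat_lit 0) (p (nat_lit 0x38112) (nat_lit 0) (p (nat_lit 0x28092) (nat_lit 0) (p (nat_lit 0x18012) (nat_lit 0) pn)))))))))))))))))))))))) :=
  Cl.node (nat_lit 0x200004) (nat_lit 2) (by decide +kernel) (ClAll.succ (ClAll.succ ClAll.zero s39) s40)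

def n16 : Cl (O (nat_lit 1)) (R (nat_lit 131281))
    (p (nat_lit 0x200004) (nat_lit 1) (p (nat_lit 0x89) (nat_lit 0) (p (nat_lit 0x101) (nat_lit 1) (p (nat_lit 0xc1) (nat_lit 1) (p (nat_lit 0x119) (nat_lit 1) (p (nat_lit 0xd1) (nat_lit 0) (p (nat_lit 0x81) (nat_lit 0) (p (nat_lit 0x41) (nat_lit 1) (p (nat_lit 0x9088787069a) (nat_lit 0) (p (nat_lit 0x8878706861a) (nat_lit 0) (p (nat_lit 0x800080686058a) (nat_lit 0) (p (nat_lit 0x706058502) (nat_lit 0) (p (nat_lit 0x605850482) (nat_lit 0) (p (nat_lit 0x160014) (nat_lit 0) (p (nat_lit 0x16000c) (nat_lit 0) (p (nat_lit 0x68512) (nat_lit 0) (p (nat_lit 0x58492) (nat_lit 0) (p (nat_lit 0x48412) (nat_lit 0) (p (nat_lit 0x50312) (nat_lit 0) (p (nat_lit 0x40292) (nat_lit 0) (p (nat_lit 0x30212) (nat_lit 0) (p (nat_lit 0x38112) (nat_lit 0) (p (nat_lit 0x28092) (nat_lit 0) (p (nat_lit 0x18012) (nat_lit 0) pn))))))))))))))))))))))))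 :=
  Cl.node (nat_lit 0xb000c) (nat_lit 2) (by decide +kernel) (ClAll.succ (ClAll.succ ClAll.zero n10) s46)

def n17 : Cl (O (nat_lit 1)) (R (nat_lit 131281))
    (p (nat_lit 0x200004) (nat_lit 1) (p (nat_lit 0x89) (nat_lit 1) (p (nat_lit 0x101) (nat_lit 1) (p (nat_lit 0xc1) (nat_lit 1) (p (nat_lit 0x119) (nat_lit 1) (p (nat_lit 0xd1) (nat_lit 0) (p (nat_lit 0x81) (nat_lit 0) (p (nat_lit 0x41) (nat_lit 1) (p (nat_lit 0x9088787069a) (nat_lit 0) (p (nat_lit 0x8878706861a) (nat_lit 0) (p (nat_lit 0x800080686058a) (nat_lit 0) (p (nat_lit 0x706058502) (nat_lit 0) (p (nat_lit 0x605850482) (nat_lit 0) (p (nat_lit 0x160014) (nat_lit 0) (p (nat_lit 0x16000c) (nat_lit 0) (p (nat_lit 0x68512) (nat_lit 0) (p (nat_lit 0x58492) (nat_lit 0) (p (nat_lit 0x48412) (nat_lit 0) (p (nat_lit 0x50312) (nat_lit 0) (p (nat_lit 0x40292) (nat_lit 0) (p (nat_lit 0x30212) (nat_lit 0) (p (nat_lit 0x38112)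 (nat_lit 0) (p (nat_lit 0x28092) (nat_lit 0) (p (nat_lit 0x18012) (nat_lit 0) pn)))))))))))))))))))))))) :=
  Cl.node (nat_lit 0xb000c) (nat_lit 2) (by decide +kernel) (ClAll.succ (ClAll.succ ClAll.zero n11) s51)

def n18 : Cl (O (nat_lit 1)) (R (nat_lit 131281))
    (p (nat_lit 0xc9) (nat_lit 0) (p (nat_lit 0x89) (nat_lit 1) (p (nat_lit 0x109) (nat_lit 1) (p (nat_lit 0x101) (nat_lit 0) (p (nat_lit 0x111) (nat_lit 0) (p (nat_lit 0xd1) (nat_lit 1) (p (nat_lit 0x81) (nat_lit 0) (p (nat_lit 0x41) (nat_lit 1) (p (nat_lit 0x9088787069a) (nat_lit 0) (p (nat_lit 0x8878706861a) (nat_lit 0) (p (nat_lit 0x800080686058a) (nat_lit 0) (p (nat_lit 0x706058502) (nat_lit 0) (p (nat_lit 0x605850482) (nat_lit 0) (p (nat_lit 0x160014) (nat_lit 0) (p (nat_lit 0x16000c) (nat_lit 0) (p (nat_lit 0x68512) (nat_lit 0) (p (nat_lit 0x58492) (nat_lit 0) (p (nat_lit 0x48412) (nat_lit 0) (p (nat_lit 0x50312)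 (nat_lit 0) (p (nat_lit 0x40292) (nat_lit 0) (p (nat_lit 0x30212) (nat_lit 0) (p (nat_lit 0x38112) (nat_lit 0) (p (nat_lit 0x28092) (nat_lit 0) (p (nat_lit 0x18012) (nat_lit 0) pn)))))))))))))))))))))))) :=
  Cl.node (nat_lit 0x200004) (nat_lit 2) (by decide +kernel) (ClAll.succ (ClAll.succ ClAll.zero s54) n12)

def n19 : Cl (O (nat_lit 1)) (R (nat_lit 131281))
    (p (nat_lit 0x200004) (nat_lit 1) (p (nat_lit 0xc9) (nat_lit 0) (p (nat_lit 0x89) (nat_lit 1) (p (nat_lit 0x101) (nat_lit 1) (p (nat_lit 0x111) (nat_lit 0) (p (nat_lit 0xd1) (nat_lit 1) (p (nat_lit 0x81) (nat_lit 0) (p (nat_lit 0x41) (nat_lit 1) (p (nat_lit 0x9088787069a) (nat_lit 0) (p (nat_lit 0x8878706861a) (nat_lit 0) (p (nat_lit 0x800080686058a) (nat_lit 0) (p (nat_lit 0x706058502) (nat_lit 0) (p (nat_lit 0x605850482) (nat_lit 0) (p (nat_lit 0x160014) (nat_lit 0) (p (nat_lit 0x16000c) (nat_lit 0) (p (nat_lit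 0x68512) (nat_lit 0) (p (nat_lit 0x58492) (nat_lit 0) (p (nat_lit 0x48412) (nat_lit 0) (p (nat_lit 0x50312) (nat_lit 0) (p (nat_lit 0x40292) (nat_lit 0) (p (nat_lit 0x30212) (nat_lit 0) (p (nat_lit 0x38112) (nat_lit 0) (p (nat_lit 0x28092) (nat_lit 0) (p (nat_lit 0x18012) (nat_lit 0) pn)))))))))))))))))))))))) :=
  Cl.node (nat_lit 0xb000c) (nat_lit 2) (by decide +kernel) (ClAll.succ (ClAll.succ ClAll.zero n13) s68)

def n20 : Cl (O (nat_lit 1)) (R (nat_lit 131281))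
    (p (nat_lit 0x109) (nat_lit 1) (p (nat_lit 0x81) (nat_lit 0) (p (nat_lit 0xc1) (nat_lit 1) (p (nat_lit 0x119) (nat_lit 1) (p (nat_lit 0xd1) (nat_lit 0) (p (nat_lit 0x89) (nat_lit 0) (p (nat_lit 0x41) (nat_lit 0) (p (nat_lit 0x9088787069a) (nat_lit 0) (p (nat_lit 0x8878706861a) (nat_lit 0) (p (nat_lit 0x800080686058a) (nat_lit 0) (p (nat_lit 0x706058502) (nat_lit 0) (p (nat_lit 0x605850482) (nat_lit 0) (p (nat_lit 0x160014) (nat_lit 0) (p (nat_lit 0x16000c) (nat_lit 0) (p (nat_lit 0x68512) (nat_lit 0) (p (nat_lit 0x58492) (nat_lit 0) (p (nat_lit 0x48412) (nat_lit 0) (p (nat_lit 0x50312) (nat_lit 0) (p (nat_lit 0x40292) (nat_lit 0) (p (nat_lit 0x30212) (nat_lit 0) (p (nat_lit 0x38112) (nat_lit 0) (p (nat_lit 0x28092) (nat_lit 0) (p (nat_lit 0x18012) (nat_lit 0) pn))))))))))))))))))))))) :=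
  Cl.node (nat_lit 0x200004) (nat_lit 2) (by decide +kernel) (ClAll.succ (ClAll.succ ClAll.zero s5) s6)

def n21 : Cl (O (nat_lit 1)) (R (nat_lit 131281))
    (p (nat_lit 0x101) (nat_lit 0) (p (nat_lit 0x81) (nat_lit 1) (p (nat_lit 0xc1) (nat_lit 1) (p (nat_lit 0x119) (nat_lit 1) (p (nat_lit 0xd1) (nat_lit 0) (p (nat_lit 0x89) (nat_lit 0) (p (nat_lit 0x41) (nat_lit 0) (p (nat_lit 0x9088787069a) (nat_lit 0) (p (nat_lit 0x8878706861a) (nat_lit 0) (p (nat_lit 0x800080686058a) (nat_lit 0) (p (nat_lit 0x706058502) (nat_lit 0) (p (nat_lit 0x605850482) (nat_lit 0) (p (nat_lit 0x160014) (nat_lit 0) (p (nat_lit 0x16000c) (nat_lit 0) (p (nat_lit 0x68512) (nat_lit 0) (p (nat_lit 0x58492) (nat_lit 0) (p (nat_lit 0x48412) (nat_lit 0) (p (nat_lit 0x50312) (nat_lit 0) (p (nat_lit 0x40292) (nat_lit 0) (p (nat_lit 0x30212) (nat_lit 0) (p (nat_lit 0x38112) (nat_lit 0) (p (nat_lit 0x28092) (nat_lit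 0) (p (nat_lit 0x18012) (nat_lit 0) pn))))))))))))))))))))))) :=
  Cl.node (nat_lit 0x109) (nat_lit 2) (by decide +kernel) (ClAll.succ (ClAll.succ ClAll.zero s7) s8)

def n22 : Cl (O (nat_lit 1)) (R (nat_lit 131281))
    (p (nat_lit 0x89) (nat_lit 0) (p (nat_lit 0x109) (nat_lit 1) (p (nat_lit 0x101) (nat_lit 0) (p (nat_lit 0x119) (nat_lit 0) (p (nat_lit 0xd1) (nat_lit 0) (p (nat_lit 0x81) (nat_lit 0) (p (nat_lit 0x41) (nat_lit 1) (p (nat_lit 0x9088787069a) (nat_lit 0) (p (nat_lit 0x8878706861a) (nat_lit 0) (p (nat_lit 0x800080686058a) (nat_lit 0) (p (nat_lit 0x706058502) (nat_lit 0) (p (nat_lit 0x605850482) (nat_lit 0) (p (nat_lit 0x160014) (nat_lit 0) (p (nat_lit 0x16000c) (nat_lit 0) (p (nat_lit 0x68512) (nat_lit 0) (p (nat_lit 0x58492) (nat_lit 0) (p (nat_lit 0x48412) (nat_lit 0) (p (nat_lit 0x50312) (nat_lit 0) (p (nat_lit 0x40292) (nat_lit 0) (p (nat_lit 0x30212) (nat_lit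 0) (p (nat_lit 0x38112) (nat_lit 0) (p (nat_lit 0x28092) (nat_lit 0) (p (nat_lit 0x18012) (nat_lit 0) pn))))))))))))))))))))))) :=
  Cl.node (nat_lit 0x200004) (nat_lit 2) (by decide +kernel) (ClAll.succ (ClAll.succ ClAll.zero s22) s23)

def n23 : Cl (O (nat_lit 1)) (R (nat_lit 131281))
    (p (nat_lit 0x89) (nat_lit 1) (p (nat_lit 0xc1) (nat_lit 0) (p (nat_lit 0x101) (nat_lit 1) (p (nat_lit 0x119) (nat_lit 0) (p (nat_lit 0xd1) (nat_lit 0) (p (nat_lit 0x81) (nat_lit 0) (p (nat_lit 0x41) (nat_lit 1) (p (nat_lit 0x9088787069a) (nat_lit 0) (p (nat_lit 0x8878706861a) (nat_lit 0) (p (nat_lit 0x800080686058a) (nat_lit 0) (p (nat_lit 0x706058502) (nat_lit 0) (p (nat_lit 0x605850482) (nat_lit 0) (p (nat_lit 0x160014) (nat_lit 0) (p (nat_lit 0x16000c) (nat_lit 0) (p (nat_lit 0x68512) (nat_lit 0) (p (nat_lit 0x58492) (nat_lit 0) (p (nat_lit 0x48412) (nat_lit 0) (p (nat_lit 0x50312)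 (nat_lit 0) (p (nat_lit 0x40292) (nat_lit 0) (p (nat_lit 0x30212) (nat_lit 0) (p (nat_lit 0x38112) (nat_lit 0) (p (nat_lit 0x28092) (nat_lit 0) (p (nat_lit 0x18012) (nat_lit 0) pn))))))))))))))))))))))) :=
  Cl.node (nat_lit 0xc9) (nat_lit 2) (by decide +kernel) (ClAll.succ (ClAll.succ ClAll.zero s26) s27)

def n24 : Cl (O (nat_lit 1)) (R (nat_lit 131281))
    (p (nat_lit 0x89) (nat_lit 1) (p (nat_lit 0xc9) (nat_lit 1) (p (nat_lit 0xc1) (nat_lit 0) (p (nat_lit 0x119) (nat_lit 1) (p (nat_lit 0xd1) (nat_lit 0) (p (nat_lit 0x81) (nat_lit 0) (p (nat_lit 0x41) (nat_lit 1) (p (nat_lit 0x9088787069a) (nat_lit 0) (p (nat_lit 0x8878706861a) (nat_lit 0) (p (nat_lit 0x800080686058a) (nat_lit 0) (p (nat_lit 0x706058502) (nat_lit 0) (p (nat_lit 0x605850482) (nat_lit 0) (p (nat_lit 0x160014) (nat_lit 0) (p (nat_lit 0x16000c) (nat_lit 0) (p (nat_lit 0x68512) (nat_lit 0) (p (nat_lit 0x58492)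 (nat_lit 0) (p (nat_lit 0x48412) (nat_lit 0) (p (nat_lit 0x50312) (nat_lit 0) (p (nat_lit 0x40292) (nat_lit 0) (p (nat_lit 0x30212) (nat_lit 0) (p (nat_lit 0x38112) (nat_lit 0) (p (nat_lit 0x28092) (nat_lit 0) (p (nat_lit 0x18012) (nat_lit 0) pn))))))))))))))))))))))) :=
  Cl.node (nat_lit 0x109) (nat_lit 2) (by decide +kernel) (ClAll.succ (ClAll.succ ClAll.zero n14) s37)

def n25 : Cl (O (nat_lit 1)) (R (nat_lit 131281))
    (p (nat_lit 0x89) (nat_lit 1) (p (nat_lit 0x101) (nat_lit 0) (p (nat_lit 0xc1) (nat_lit 1) (p (nat_lit 0x119) (nat_lit 1) (p (nat_lit 0xd1) (nat_lit 0) (p (nat_lit 0x81) (nat_lit 0) (p (nat_lit 0x41) (nat_lit 1) (p (nat_lit 0x9088787069a) (nat_lit 0) (p (nat_lit 0x8878706861a) (nat_lit 0) (p (nat_lit 0x800080686058a) (nat_lit 0) (p (nat_lit 0x706058502) (nat_lit 0) (p (nat_lit 0x605850482) (nat_lit 0) (p (nat_lit 0x160014) (nat_lit 0) (p (nat_lit 0x16000c)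 (nat_lit 0) (p (nat_lit 0x68512) (nat_lit 0) (p (nat_lit 0x58492) (nat_lit 0) (p (nat_lit 0x48412) (nat_lit 0) (p (nat_lit 0x50312) (nat_lit 0) (p (nat_lit 0x40292) (nat_lit 0) (p (nat_lit 0x30212) (nat_lit 0) (p (nat_lit 0x38112) (nat_lit 0) (p (nat_lit 0x28092) (nat_lit 0) (p (nat_lit 0x18012) (nat_lit 0) pn))))))))))))))))))))))) :=
  Cl.node (nat_lit 0x109) (nat_lit 2) (by decide +kernel) (ClAll.succ (ClAll.succ ClAll.zero n15) s41)

def n26 : Cl (O (nat_lit 1)) (R (nat_lit 131281))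
    (p (nat_lit 0x89) (nat_lit 0) (p (nat_lit 0x101) (nat_lit 1) (p (nat_lit 0xc1) (nat_lit 1) (p (nat_lit 0x119) (nat_lit 1) (p (nat_lit 0xd1) (nat_lit 0) (p (nat_lit 0x81) (nat_lit 0) (p (nat_lit 0x41) (nat_lit 1) (p (nat_lit 0x9088787069a) (nat_lit 0) (p (nat_lit 0x8878706861a) (nat_lit 0) (p (nat_lit 0x800080686058a) (nat_lit 0) (p (nat_lit 0x706058502) (nat_lit 0) (p (nat_lit 0x605850482) (nat_lit 0) (p (nat_lit 0x160014) (nat_lit 0) (p (nat_lit 0x16000c) (nat_lit 0) (p (nat_lit 0x68512) (nat_lit 0) (p (nat_lit 0x58492) (nat_lit 0) (p (nat_lit 0x48412) (nat_lit 0) (p (nat_lit 0x50312) (nat_lit 0) (p (nat_lit 0x40292) (nat_lit 0) (p (nat_lit 0x30212) (nat_lit 0) (p (nat_lit 0x38112) (nat_lit 0) (p (nat_lit 0x28092) (nat_lit 0) (p (nat_lit 0x18012) (nat_lit 0) pn))))))))))))))))))))))) :=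
  Cl.node (nat_lit 0x200004) (nat_lit 2) (by decide +kernel) (ClAll.succ (ClAll.succ ClAll.zero s42) n16)

def n27 : Cl (O (nat_lit 1)) (R (nat_lit 131281))
    (p (nat_lit 0x89) (nat_lit 1) (p (nat_lit 0x101) (nat_lit 1) (p (nat_lit 0xc1) (nat_lit 1) (p (nat_lit 0x119) (nat_lit 1) (p (nat_lit 0xd1) (nat_lit 0) (p (nat_lit 0x81) (nat_lit 0) (p (nat_lit 0x41) (nat_lit 1) (p (nat_lit 0x9088787069a) (nat_lit 0) (p (nat_lit 0x8878706861a) (nat_lit 0) (p (nat_lit 0x800080686058a) (nat_lit 0) (p (nat_lit 0x706058502) (nat_lit 0) (p (nat_lit 0x605850482) (nat_lit 0) (p (nat_lit 0x160014) (nat_lit 0) (p (nat_lit 0x16000c) (nat_lit 0) (p (nat_lit 0x68512) (nat_lit 0) (p (nat_lit 0x58492) (nat_lit 0) (p (nat_lit 0x48412) (nat_lit 0) (p (nat_lit 0x50312) (nat_lit 0) (p (nat_lit 0x40292) (nat_lit 0) (p (nat_lit 0x30212) (nat_lit 0) (p (nat_lit 0x38112) (nat_lit 0) (p (nat_lit 0x28092)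 (nat_lit 0) (p (nat_lit 0x18012) (nat_lit 0) pn))))))))))))))))))))))) :=
  Cl.node (nat_lit 0x200004) (nat_lit 2) (by decide +kernel) (ClAll.succ (ClAll.succ ClAll.zero s47) n17)

def n28 : Cl (O (nat_lit 1)) (R (nat_lit 131281))
    (p (nat_lit 0x89) (nat_lit 1) (p (nat_lit 0x109) (nat_lit 1) (p (nat_lit 0x101) (nat_lit 0) (p (nat_lit 0x111) (nat_lit 0) (p (nat_lit 0xd1) (nat_lit 1) (p (nat_lit 0x81) (nat_lit 0) (p (nat_lit 0x41) (nat_lit 1) (p (nat_lit 0x9088787069a) (nat_lit 0) (p (nat_lit 0x8878706861a) (nat_lit 0) (p (nat_lit 0x800080686058a) (nat_lit 0) (p (nat_lit 0x706058502) (nat_lit 0) (p (nat_lit 0x605850482) (nat_lit 0) (p (nat_lit 0x160014) (nat_lit 0) (p (nat_lit 0x16000c) (nat_lit 0) (p (nat_lit 0x68512) (nat_lit 0) (p (nat_lit 0x58492) (nat_lit 0) (p (nat_lit 0x48412) (nat_lit 0) (p (nat_lit 0x50312) (nat_lit 0) (p (nat_lit 0x40292) (nat_lit 0) (p (nat_lit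 0x30212) (nat_lit 0) (p (nat_lit 0x38112) (nat_lit 0) (p (nat_lit 0x28092) (nat_lit 0) (p (nat_lit 0x18012) (nat_lit 0) pn))))))))))))))))))))))) :=
  Cl.node (nat_lit 0xc9) (nat_lit 2) (by decide +kernel) (ClAll.succ (ClAll.succ ClAll.zero n18) s60)

def n29 : Cl (O (nat_lit 1)) (R (nat_lit 131281))
    (p (nat_lit 0xc9) (nat_lit 0) (p (nat_lit 0x89) (nat_lit 1) (p (nat_lit 0x101) (nat_lit 1) (p (nat_lit 0x111) (nat_lit 0) (p (nat_lit 0xd1) (nat_lit 1) (p (nat_lit 0x81) (nat_lit 0) (p (nat_lit 0x41) (nat_lit 1) (p (nat_lit 0x9088787069a) (nat_lit 0) (p (nat_lit 0x8878706861a) (nat_lit 0) (p (nat_lit 0x800080686058a) (nat_lit 0) (p (nat_lit 0x706058502) (nat_lit 0) (p (nat_lit 0x605850482) (nat_lit 0) (p (nat_lit 0x160014) (nat_lit 0) (p (nat_lit 0x16000c) (nat_lit 0) (p (nat_lit 0x68512) (nat_lit 0) (p (nat_lit 0x58492) (nat_lit 0) (p (nat_lit 0x48412) (nat_lit 0) (p (nat_lit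 0x50312) (nat_lit 0) (p (nat_lit 0x40292) (nat_lit 0) (p (nat_lit 0x30212) (nat_lit 0) (p (nat_lit 0x38112) (nat_lit 0) (p (nat_lit 0x28092) (nat_lit 0) (p (nat_lit 0x18012) (nat_lit 0) pn))))))))))))))))))))))) :=
  Cl.node (nat_lit 0x200004) (nat_lit 2) (by decide +kernel) (ClAll.succ (ClAll.succ ClAll.zero s63) n19)

def n30 : Cl (O (nat_lit 1)) (R (nat_lit 131281))
    (p (nat_lit 0x81) (nat_lit 0) (p (nat_lit 0xc1) (nat_lit 1) (p (nat_lit 0x119) (nat_lit 1) (p (nat_lit 0xd1) (nat_lit 0) (p (nat_lit 0x89) (nat_lit 0) (p (nat_lit 0x41) (nat_lit 0) (p (nat_lit 0x9088787069a) (nat_lit 0) (p (nat_lit 0x8878706861a) (nat_lit 0) (p (nat_lit 0x800080686058a) (nat_lit 0) (p (nat_lit 0x706058502) (nat_lit 0) (p (nat_lit 0x605850482) (nat_lit 0) (p (nat_lit 0x160014) (nat_lit 0) (p (nat_lit 0x16000c) (nat_lit 0) (p (nat_lit 0x68512) (nat_lit 0) (p (nat_lit 0x58492) (nat_lit 0) (p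 (nat_lit 0x48412) (nat_lit 0) (p (nat_lit 0x50312) (nat_lit 0) (p (nat_lit 0x40292) (nat_lit 0) (p (nat_lit 0x30212) (nat_lit 0) (p (nat_lit 0x38112) (nat_lit 0) (p (nat_lit 0x28092) (nat_lit 0) (p (nat_lit 0x18012) (nat_lit 0) pn)))))))))))))))))))))) :=
  Cl.node (nat_lit 0x109) (nat_lit 2) (by decide +kernel) (ClAll.succ (ClAll.succ ClAll.zero s4) n20)

def n31 : Cl (O (nat_lit 1)) (R (nat_lit 131281))
    (p (nat_lit 0x81) (nat_lit 1) (p (nat_lit 0xc1) (nat_lit 1) (p (nat_lit 0x119) (nat_lit 1) (p (nat_lit 0xd1) (nat_lit 0) (p (nat_lit 0x89) (nat_lit 0) (p (nat_lit 0x41) (nat_lit 0) (p (nat_lit 0x9088787069a) (nat_lit 0) (p (nat_lit 0x8878706861a) (nat_lit 0) (p (nat_lit 0x800080686058a) (nat_lit 0) (p (nat_lit 0x706058502) (nat_lit 0) (p (nat_lit 0x605850482) (nat_lit 0) (p (nat_lit 0x160014) (nat_lit 0) (p (nat_lit 0x16000c) (nat_lit 0) (p (nat_lit 0x68512) (nat_lit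 0) (p (nat_lit 0x58492) (nat_lit 0) (p (nat_lit 0x48412) (nat_lit 0) (p (nat_lit 0x50312) (nat_lit 0) (p (nat_lit 0x40292) (nat_lit 0) (p (nat_lit 0x30212) (nat_lit 0) (p (nat_lit 0x38112) (nat_lit 0) (p (nat_lit 0x28092) (nat_lit 0) (p (nat_lit 0x18012) (nat_lit 0) pn)))))))))))))))))))))) :=
  Cl.node (nat_lit 0x101) (nat_lit 2) (by decide +kernel) (ClAll.succ (ClAll.succ ClAll.zero n21) s9)

def n32 : Cl (O (nat_lit 1)) (R (nat_lit 131281))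
    (p (nat_lit 0x109) (nat_lit 1) (p (nat_lit 0x101) (nat_lit 0) (p (nat_lit 0x119) (nat_lit 0) (p (nat_lit 0xd1) (nat_lit 0) (p (nat_lit 0x81) (nat_lit 0) (p (nat_lit 0x41) (nat_lit 1) (p (nat_lit 0x9088787069a) (nat_lit 0) (p (nat_lit 0x8878706861a) (nat_lit 0) (p (nat_lit 0x800080686058a) (nat_lit 0) (p (nat_lit 0x706058502) (nat_lit 0) (p (nat_lit 0x605850482) (nat_lit 0) (p (nat_lit 0x160014) (nat_lit 0) (p (nat_lit 0x16000c) (nat_lit 0) (p (nat_lit 0x68512) (nat_lit 0) (p (nat_lit 0x58492) (nat_lit 0) (p (nat_lit 0x48412) (nat_lit 0) (p (nat_lit 0x50312) (nat_lit 0) (p (nat_lit 0x40292) (nat_lit 0) (p (nat_lit 0x30212) (nat_lit 0) (p (nat_lit 0x38112) (nat_lit 0) (p (nat_lit 0x28092) (nat_lit 0) (p (nat_lit 0x18012) (nat_lit 0) pn)))))))))))))))))))))) :=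
  Cl.node (nat_lit 0x89) (nat_lit 2) (by decide +kernel) (ClAll.succ (ClAll.succ ClAll.zero n22) s24)

def n33 : Cl (O (nat_lit 1)) (R (nat_lit 131281))
    (p (nat_lit 0xc1) (nat_lit 0) (p (nat_lit 0x101) (nat_lit 1) (p (nat_lit 0x119) (nat_lit 0) (p (nat_lit 0xd1) (nat_lit 0) (p (nat_lit 0x81) (nat_lit 0) (p (nat_lit 0x41) (nat_lit 1) (p (nat_lit 0x9088787069a) (nat_lit 0) (p (nat_lit 0x8878706861a) (nat_lit 0) (p (nat_lit 0x800080686058a) (nat_lit 0) (p (nat_lit 0x706058502) (nat_lit 0) (p (nat_lit 0x605850482) (nat_lit 0) (p (nat_lit 0x160014) (nat_lit 0) (p (nat_lit 0x16000c) (nat_lit 0) (p (nat_lit 0x68512) (nat_lit 0) (p (nat_lit 0x58492) (nat_lit 0) (p (nat_lit 0x48412) (nat_lit 0) (p (nat_lit 0x50312) (nat_lit 0) (p (nat_lit 0x40292) (nat_lit 0) (p (nat_lit 0x30212) (nat_lit 0) (p (nat_lit 0x38112) (nat_lit 0) (p (nat_lit 0x28092) (nat_lit 0) (p (nat_lit 0x18012)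 (nat_lit 0) pn)))))))))))))))))))))) :=
  Cl.node (nat_lit 0x89) (nat_lit 2) (by decide +kernel) (ClAll.succ (ClAll.succ ClAll.zero s25) n23)

def n34 : Cl (O (nat_lit 1)) (R (nat_lit 131281))
    (p (nat_lit 0xc1) (nat_lit 1) (p (nat_lit 0x101) (nat_lit 1) (p (nat_lit 0x119) (nat_lit 0) (p (nat_lit 0xd1) (nat_lit 0) (p (nat_lit 0x81) (nat_lit 0) (p (nat_lit 0x41) (nat_lit 1) (p (nat_lit 0x9088787069a) (nat_lit 0) (p (nat_lit 0x8878706861a) (nat_lit 0) (p (nat_lit 0x800080686058a) (nat_lit 0) (p (nat_lit 0x706058502) (nat_lit 0) (p (nat_lit 0x605850482) (nat_lit 0) (p (nat_lit 0x160014) (nat_lit 0) (p (nat_lit 0x16000c) (nat_lit 0) (p (nat_lit 0x68512) (nat_lit 0) (p (nat_lit 0x58492) (nat_lit 0) (p (nat_lit 0x48412) (nat_lit 0) (p (nat_lit 0x50312) (nat_lit 0) (p (nat_lit 0x40292) (nat_lit 0) (p (nat_lit 0x30212) (nat_lit 0) (p (nat_lit 0x38112) (nat_lit 0) (p (nat_lit 0x28092)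 (nat_lit 0) (p (nat_lit 0x18012) (nat_lit 0) pn)))))))))))))))))))))) :=
  Cl.node (nat_lit 0x89) (nat_lit 2) (by decide +kernel) (ClAll.succ (ClAll.succ ClAll.zero s28) s29)

def n35 : Cl (O (nat_lit 1)) (R (nat_lit 131281))
    (p (nat_lit 0xc9) (nat_lit 1) (p (nat_lit 0xc1) (nat_lit 0) (p (nat_lit 0x119) (nat_lit 1) (p (nat_lit 0xd1) (nat_lit 0) (p (nat_lit 0x81) (nat_lit 0) (p (nat_lit 0x41) (nat_lit 1) (p (nat_lit 0x9088787069a) (nat_lit 0) (p (nat_lit 0x8878706861a) (nat_lit 0) (p (nat_lit 0x800080686058a) (nat_lit 0) (p (nat_lit 0x706058502) (nat_lit 0) (p (nat_lit 0x605850482) (nat_lit 0) (p (nat_lit 0x160014) (nat_lit 0) (p (nat_lit 0x16000c) (nat_lit 0) (p (nat_lit 0x68512) (nat_lit 0) (p (nat_lit 0x58492) (nat_lit 0) (p (nat_lit 0x48412) (nat_lit 0) (p (nat_lit 0x50312) (nat_lit 0) (p (nat_lit 0x40292) (nat_lit 0) (p (nat_lit 0x30212) (nat_lit 0) (p (nat_lit 0x38112)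 (nat_lit 0) (p (nat_lit 0x28092) (nat_lit 0) (p (nat_lit 0x18012) (nat_lit 0) pn)))))))))))))))))))))) :=
  Cl.node (nat_lit 0x89) (nat_lit 2) (by decide +kernel) (ClAll.succ (ClAll.succ ClAll.zero s31) n24)

def n36 : Cl (O (nat_lit 1)) (R (nat_lit 131281))
    (p (nat_lit 0x101) (nat_lit 0) (p (nat_lit 0xc1) (nat_lit 1) (p (nat_lit 0x119) (nat_lit 1) (p (nat_lit 0xd1) (nat_lit 0) (p (nat_lit 0x81) (nat_lit 0) (p (nat_lit 0x41) (nat_lit 1) (p (nat_lit 0x9088787069a) (nat_lit 0) (p (nat_lit 0x8878706861a) (nat_lit 0) (p (nat_lit 0x800080686058a) (nat_lit 0) (p (nat_lit 0x706058502) (nat_lit 0) (p (nat_lit 0x605850482) (nat_lit 0) (p (nat_lit 0x160014) (nat_lit 0) (p (nat_lit 0x16000c) (nat_lit 0) (p (nat_lit 0x68512) (nat_lit 0) (p (nat_lit 0x58492) (nat_lit 0) (p (nat_lit 0x48412) (nat_lit 0) (p (nat_lit 0x50312) (nat_lit 0) (p (nat_lit 0x40292) (nat_lit 0) (p (nat_lit 0x30212)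 (nat_lit 0) (p (nat_lit 0x38112) (nat_lit 0) (p (nat_lit 0x28092) (nat_lit 0) (p (nat_lit 0x18012) (nat_lit 0) pn)))))))))))))))))))))) :=
  Cl.node (nat_lit 0x89) (nat_lit 2) (by decide +kernel) (ClAll.succ (ClAll.succ ClAll.zero s38) n25)

def n37 : Cl (O (nat_lit 1)) (R (nat_lit 131281))
    (p (nat_lit 0x101) (nat_lit 1) (p (nat_lit 0xc1) (nat_lit 1) (p (nat_lit 0x119) (nat_lit 1) (p (nat_lit 0xd1) (nat_lit 0) (p (nat_lit 0x81) (nat_lit 0) (p (nat_lit 0x41) (nat_lit 1) (p (nat_lit 0x9088787069a) (nat_lit 0) (p (nat_lit 0x8878706861a) (nat_lit 0) (p (nat_lit 0x800080686058a) (nat_lit 0) (p (nat_lit 0x706058502) (nat_lit 0) (p (nat_lit 0x605850482) (nat_lit 0) (p (nat_lit 0x160014) (nat_lit 0) (p (nat_lit 0x16000c) (nat_lit 0) (p (nat_lit 0x68512) (nat_lit 0) (p (nat_lit 0x58492) (nat_lit 0) (p (nat_lit 0x48412) (nat_lit 0) (p (nat_lit 0x50312) (nat_lit 0) (p (nat_lit 0x40292)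 (nat_lit 0) (p (nat_lit 0x30212) (nat_lit 0) (p (nat_lit 0x38112) (nat_lit 0) (p (nat_lit 0x28092) (nat_lit 0) (p (nat_lit 0x18012) (nat_lit 0) pn)))))))))))))))))))))) :=
  Cl.node (nat_lit 0x89) (nat_lit 2) (by decide +kernel) (ClAll.succ (ClAll.succ ClAll.zero n26) n27)

def n38 : Cl (O (nat_lit 1)) (R (nat_lit 131281))
    (p (nat_lit 0x109) (nat_lit 1) (p (nat_lit 0x101) (nat_lit 0) (p (nat_lit 0x111) (nat_lit 0) (p (nat_lit 0xd1) (nat_lit 1) (p (nat_lit 0x81) (nat_lit 0) (p (nat_lit 0x41) (nat_lit 1) (p (nat_lit 0x9088787069a) (nat_lit 0) (p (nat_lit 0x8878706861a) (nat_lit 0) (p (nat_lit 0x800080686058a) (nat_lit 0) (p (nat_lit 0x706058502) (nat_lit 0) (p (nat_lit 0x605850482) (nat_lit 0) (p (nat_lit 0x160014) (nat_lit 0) (p (nat_lit 0x16000c) (nat_lit 0) (p (nat_lit 0x68512) (nat_lit 0) (p (nat_lit 0x58492) (nat_lit 0) (p (nat_lit 0x48412) (nat_lit 0) (p (nat_lit 0x50312)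 (nat_lit 0) (p (nat_lit 0x40292) (nat_lit 0) (p (nat_lit 0x30212) (nat_lit 0) (p (nat_lit 0x38112) (nat_lit 0) (p (nat_lit 0x28092) (nat_lit 0) (p (nat_lit 0x18012) (nat_lit 0) pn)))))))))))))))))))))) :=
  Cl.node (nat_lit 0x89) (nat_lit 2) (by decide +kernel) (ClAll.succ (ClAll.succ ClAll.zero s53) n28)

def n39 : Cl (O (nat_lit 1)) (R (nat_lit 131281))
    (p (nat_lit 0x89) (nat_lit 0) (p (nat_lit 0x101) (nat_lit 1) (p (nat_lit 0x111) (nat_lit 0) (p (nat_lit 0xd1) (nat_lit 1) (p (nat_lit 0x81) (nat_lit 0) (p (nat_lit 0x41) (nat_lit 1) (p (nat_lit 0x9088787069a) (nat_lit 0) (p (nat_lit 0x8878706861a) (nat_lit 0) (p (nat_lit 0x800080686058a) (nat_lit 0) (p (nat_lit 0x706058502) (nat_lit 0) (p (nat_lit 0x605850482) (nat_lit 0) (p (nat_lit 0x160014) (nat_lit 0) (p (nat_lit 0x16000c) (nat_lit 0) (p (nat_lit 0x68512) (nat_lit 0) (p (nat_lit 0x58492) (nat_lit 0) (p (nat_lit 0x48412)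 (nat_lit 0) (p (nat_lit 0x50312) (nat_lit 0) (p (nat_lit 0x40292) (nat_lit 0) (p (nat_lit 0x30212) (nat_lit 0) (p (nat_lit 0x38112) (nat_lit 0) (p (nat_lit 0x28092) (nat_lit 0) (p (nat_lit 0x18012) (nat_lit 0) pn)))))))))))))))))))))) :=
  Cl.node (nat_lit 0x200004) (nat_lit 2) (by decide +kernel) (ClAll.succ (ClAll.succ ClAll.zero s61) s62)

def n40 : Cl (O (nat_lit 1)) (R (nat_lit 131281))
    (p (nat_lit 0x89) (nat_lit 1) (p (nat_lit 0x101) (nat_lit 1) (p (nat_lit 0x111) (nat_lit 0) (p (nat_lit 0xd1) (nat_lit 1) (p (nat_lit 0x81) (nat_lit 0) (p (nat_lit 0x41) (nat_lit 1) (p (nat_lit 0x9088787069a) (nat_lit 0) (p (nat_lit 0x8878706861a) (nat_lit 0) (p (nat_lit 0x800080686058a) (nat_lit 0) (p (nat_lit 0x706058502) (nat_lit 0) (p (nat_lit 0x605850482) (nat_lit 0) (p (nat_lit 0x160014) (nat_lit 0) (p (nat_lit 0x16000c) (nat_lit 0) (p (nat_lit 0x68512) (nat_lit 0) (p (nat_lit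 0x58492) (nat_lit 0) (p (nat_lit 0x48412) (nat_lit 0) (p (nat_lit 0x50312) (nat_lit 0) (p (nat_lit 0x40292) (nat_lit 0) (p (nat_lit 0x30212) (nat_lit 0) (p (nat_lit 0x38112) (nat_lit 0) (p (nat_lit 0x28092) (nat_lit 0) (p (nat_lit 0x18012) (nat_lit 0) pn)))))))))))))))))))))) :=
  Cl.node (nat_lit 0xc9) (nat_lit 2) (by decide +kernel) (ClAll.succ (ClAll.succ ClAll.zero n29) s69)

def n41 : Cl (O (nat_lit 1)) (R (nat_lit 131281))
    (p (nat_lit 0xc9) (nat_lit 1) (p (nat_lit 0x89) (nat_lit 1) (p (nat_lit 0x111) (nat_lit 1) (p (nat_lit 0xd1) (nat_lit 1) (p (nat_lit 0x81) (nat_lit 0) (p (nat_lit 0x41) (nat_lit 1) (p (nat_lit 0x9088787069a) (nat_lit 0) (p (nat_lit 0x8878706861a) (nat_lit 0) (p (nat_lit 0x800080686058a) (nat_lit 0) (p (nat_lit 0x706058502) (nat_lit 0) (p (nat_lit 0x605850482) (nat_lit 0) (p (nat_lit 0x160014) (nat_lit 0) (p (nat_lit 0x16000c) (nat_lit 0) (p (nat_lit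 0x68512) (nat_lit 0) (p (nat_lit 0x58492) (nat_lit 0) (p (nat_lit 0x48412) (nat_lit 0) (p (nat_lit 0x50312) (nat_lit 0) (p (nat_lit 0x40292) (nat_lit 0) (p (nat_lit 0x30212) (nat_lit 0) (p (nat_lit 0x38112) (nat_lit 0) (p (nat_lit 0x28092) (nat_lit 0) (p (nat_lit 0x18012) (nat_lit 0) pn)))))))))))))))))))))) :=
  Cl.node (nat_lit 0x109) (nat_lit 2) (by decide +kernel) (ClAll.succ (ClAll.succ ClAll.zero s72) s73)

def n42 : Cl (O (nat_lit 1)) (R (nat_lit 131281))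
    (p (nat_lit 0x109) (nat_lit 0) (p (nat_lit 0xc9) (nat_lit 1) (p (nat_lit 0x119) (nat_lit 1) (p (nat_lit 0xc1) (nat_lit 0) (p (nat_lit 0x81) (nat_lit 1) (p (nat_lit 0x41) (nat_lit 1) (p (nat_lit 0x9088787069a) (nat_lit 0) (p (nat_lit 0x8878706861a) (nat_lit 0) (p (nat_lit 0x800080686058a) (nat_lit 0) (p (nat_lit 0x706058502) (nat_lit 0) (p (nat_lit 0x605850482) (nat_lit 0) (p (nat_lit 0x160014) (nat_lit 0) (p (nat_lit 0x16000c) (nat_lit 0) (p (nat_lit 0x68512) (nat_lit 0) (p (nat_lit 0x58492) (nat_lit 0) (p (nat_lit 0x48412) (nat_lit 0) (p (nat_lit 0x50312) (nat_lit 0) (p (nat_lit 0x40292) (nat_lit 0) (p (nat_lit 0x30212) (nat_lit 0) (p (nat_lit 0x38112) (nat_lit 0) (p (nat_lit 0x28092) (nat_lit 0) (p (nat_lit 0x18012) (nat_lit 0) pn)))))))))))))))))))))) :=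
  Cl.node (nat_lit 0x111) (nat_lit 2) (by decide +kernel) (ClAll.succ (ClAll.succ ClAll.zero s80) s81)

def n43 : Cl (O (nat_lit 1)) (R (nat_lit 131281))
    (p (nat_lit 0x101) (nat_lit 1) (p (nat_lit 0x119) (nat_lit 0) (p (nat_lit 0xd1) (nat_lit 0) (p (nat_lit 0x89) (nat_lit 0) (p (nat_lit 0x41) (nat_lit 0) (p (nat_lit 0x9088787069a) (nat_lit 0) (p (nat_lit 0x8878706861a) (nat_lit 0) (p (nat_lit 0x800080686058a) (nat_lit 0) (p (nat_lit 0x706058502) (nat_lit 0) (p (nat_lit 0x605850482) (nat_lit 0) (p (nat_lit 0x160014) (nat_lit 0) (p (nat_lit 0x16000c) (nat_lit 0) (p (nat_lit 0x68512) (nat_lit 0) (p (nat_lit 0x58492) (nat_lit 0) (p (nat_lit 0x48412) (nat_lit 0) (p (nat_lit 0x50312) (nat_lit 0) (p (nat_lit 0x40292) (nat_lit 0) (p (nat_lit 0x30212) (nat_lit 0) (p (nat_lit 0x38112) (nat_lit 0) (p (nat_lit 0x28092) (nat_lit 0) (p (nat_lit 0x18012) (nat_lit 0) pn)))))))))))))))))))))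 :=
  Cl.node (nat_lit 0x81) (nat_lit 2) (by decide +kernel) (ClAll.succ (ClAll.succ ClAll.zero s1) s2)

def n44 : Cl (O (nat_lit 1)) (R (nat_lit 131281))
    (p (nat_lit 0xc1) (nat_lit 1) (p (nat_lit 0x119) (nat_lit 1) (p (nat_lit 0xd1) (nat_lit 0) (p (nat_lit 0x89) (nat_lit 0) (p (nat_lit 0x41) (nat_lit 0) (p (nat_lit 0x9088787069a) (nat_lit 0) (p (nat_lit 0x8878706861a) (nat_lit 0) (p (nat_lit 0x800080686058a) (nat_lit 0) (p (nat_lit 0x706058502) (nat_lit 0) (p (nat_lit 0x605850482) (nat_lit 0) (p (nat_lit 0x160014) (nat_lit 0) (p (nat_lit 0x16000c) (nat_lit 0) (p (nat_lit 0x68512) (nat_lit 0) (p (nat_lit 0x58492) (nat_lit 0) (p (nat_lit 0x48412) (nat_lit 0) (p (nat_lit 0x50312) (nat_lit 0) (p (nat_lit 0x40292) (nat_lit 0) (p (nat_lit 0x30212) (nat_lit 0) (p (nat_lit 0x38112) (nat_lit 0) (p (nat_lit 0x28092) (nat_lit 0) (p (nat_lit 0x18012) (nat_lit 0) pn)))))))))))))))))))))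 :=
  Cl.node (nat_lit 0x81) (nat_lit 2) (by decide +kernel) (ClAll.succ (ClAll.succ ClAll.zero n30) n31)

def n45 : Cl (O (nat_lit 1)) (R (nat_lit 131281))
    (p (nat_lit 0x101) (nat_lit 1) (p (nat_lit 0x111) (nat_lit 0) (p (nat_lit 0xd1) (nat_lit 1) (p (nat_lit 0x89) (nat_lit 0) (p (nat_lit 0x41) (nat_lit 0) (p (nat_lit 0x9088787069a) (nat_lit 0) (p (nat_lit 0x8878706861a) (nat_lit 0) (p (nat_lit 0x800080686058a) (nat_lit 0) (p (nat_lit 0x706058502) (nat_lit 0) (p (nat_lit 0x605850482) (nat_lit 0) (p (nat_lit 0x160014) (nat_lit 0) (p (nat_lit 0x16000c) (nat_lit 0) (p (nat_lit 0x68512) (nat_lit 0) (p (nat_lit 0x58492) (nat_lit 0) (p (nat_lit 0x48412) (nat_lit 0) (p (nat_lit 0x50312) (nat_lit 0) (p (nat_lit 0x40292) (nat_lit 0) (p (nat_lit 0x30212) (nat_lit 0) (p (nat_lit 0x38112) (nat_lit 0) (p (nat_lit 0x28092) (nat_lit 0) (p (nat_lit 0x18012) (nat_lit 0) pn)))))))))))))))))))))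 :=
  Cl.node (nat_lit 0x81) (nat_lit 2) (by decide +kernel) (ClAll.succ (ClAll.succ ClAll.zero s11) s12)

def n46 : Cl (O (nat_lit 1)) (R (nat_lit 131281))
    (p (nat_lit 0x81) (nat_lit 1) (p (nat_lit 0x111) (nat_lit 1) (p (nat_lit 0xd1) (nat_lit 1) (p (nat_lit 0x89) (nat_lit 0) (p (nat_lit 0x41) (nat_lit 0) (p (nat_lit 0x9088787069a) (nat_lit 0) (p (nat_lit 0x8878706861a) (nat_lit 0) (p (nat_lit 0x800080686058a) (nat_lit 0) (p (nat_lit 0x706058502) (nat_lit 0) (p (nat_lit 0x605850482) (nat_lit 0) (p (nat_lit 0x160014) (nat_lit 0) (p (nat_lit 0x16000c) (nat_lit 0) (p (nat_lit 0x68512) (nat_lit 0) (p (nat_lit 0x58492) (nat_lit 0) (p (nat_lit 0x48412) (nat_lit 0) (p (nat_lit 0x50312) (nat_lit 0) (p (nat_lit 0x40292) (nat_lit 0) (p (nat_lit 0x30212) (nat_lit 0) (p (nat_lit 0x38112) (nat_lit 0) (p (nat_lit 0x28092) (nat_lit 0) (p (nat_lit 0x18012) (nat_lit 0) pn)))))))))))))))))))))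 :=
  Cl.node (nat_lit 0xc1) (nat_lit 2) (by decide +kernel) (ClAll.succ (ClAll.succ ClAll.zero s14) s15)

def n47 : Cl (O (nat_lit 1)) (R (nat_lit 131281))
    (p (nat_lit 0x101) (nat_lit 0) (p (nat_lit 0x119) (nat_lit 0) (p (nat_lit 0xd1) (nat_lit 0) (p (nat_lit 0x81) (nat_lit 0) (p (nat_lit 0x41) (nat_lit 1) (p (nat_lit 0x9088787069a) (nat_lit 0) (p (nat_lit 0x8878706861a) (nat_lit 0) (p (nat_lit 0x800080686058a) (nat_lit 0) (p (nat_lit 0x706058502) (nat_lit 0) (p (nat_lit 0x605850482) (nat_lit 0) (p (nat_lit 0x160014) (nat_lit 0) (p (nat_lit 0x16000c) (nat_lit 0) (p (nat_lit 0x68512) (nat_lit 0) (p (nat_lit 0x58492) (nat_lit 0) (p (nat_lit 0x48412) (nat_lit 0) (p (nat_lit 0x50312) (nat_lit 0) (p (nat_lit 0x40292) (nat_lit 0) (p (nat_lit 0x30212) (nat_lit 0) (p (nat_lit 0x38112) (nat_lit 0) (p (nat_lit 0x28092) (nat_lit 0) (p (nat_lit 0x18012) (nat_lit 0) pn)))))))))))))))))))))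 :=
  Cl.node (nat_lit 0x109) (nat_lit 2) (by decide +kernel) (ClAll.succ (ClAll.succ ClAll.zero s21) n32)

def n48 : Cl (O (nat_lit 1)) (R (nat_lit 131281))
    (p (nat_lit 0x101) (nat_lit 1) (p (nat_lit 0x119) (nat_lit 0) (p (nat_lit 0xd1) (nat_lit 0) (p (nat_lit 0x81) (nat_lit 0) (p (nat_lit 0x41) (nat_lit 1) (p (nat_lit 0x9088787069a) (nat_lit 0) (p (nat_lit 0x8878706861a) (nat_lit 0) (p (nat_lit 0x800080686058a) (nat_lit 0) (p (nat_lit 0x706058502) (nat_lit 0) (p (nat_lit 0x605850482) (nat_lit 0) (p (nat_lit 0x160014) (nat_lit 0) (p (nat_lit 0x16000c) (nat_lit 0) (p (nat_lit 0x68512) (nat_lit 0) (p (nat_lit 0x58492) (nat_lit 0) (p (nat_lit 0x48412) (nat_lit 0) (p (nat_lit 0x50312) (nat_lit 0) (p (nat_lit 0x40292) (nat_lit 0) (p (nat_lit 0x30212) (nat_lit 0) (p (nat_lit 0x38112) (nat_lit 0) (p (nat_lit 0x28092) (nat_lit 0) (p (nat_lit 0x18012) (nat_lit 0) pn)))))))))))))))))))))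 :=
  Cl.node (nat_lit 0xc1) (nat_lit 2) (by decide +kernel) (ClAll.succ (ClAll.succ ClAll.zero n33) n34)

def n49 : Cl (O (nat_lit 1)) (R (nat_lit 131281))
    (p (nat_lit 0xc1) (nat_lit 0) (p (nat_lit 0x119) (nat_lit 1) (p (nat_lit 0xd1) (nat_lit 0) (p (nat_lit 0x81) (nat_lit 0) (p (nat_lit 0x41) (nat_lit 1) (p (nat_lit 0x9088787069a) (nat_lit 0) (p (nat_lit 0x8878706861a) (nat_lit 0) (p (nat_lit 0x800080686058a) (nat_lit 0) (p (nat_lit 0x706058502) (nat_lit 0) (p (nat_lit 0x605850482) (nat_lit 0) (p (nat_lit 0x160014) (nat_lit 0) (p (nat_lit 0x16000c) (nat_lit 0) (p (nat_lit 0x68512) (nat_lit 0) (p (nat_lit 0x58492) (nat_lit 0) (p (nat_lit 0x48412) (nat_lit 0) (p (nat_lit 0x50312) (nat_lit 0) (p (nat_lit 0x40292) (nat_lit 0) (p (nat_lit 0x30212) (nat_lit 0) (p (nat_lit 0x38112) (nat_lit 0) (p (nat_lit 0x28092) (nat_lit 0) (p (nat_lit 0x18012) (nat_lit 0) pn)))))))))))))))))))))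 :=
  Cl.node (nat_lit 0xc9) (nat_lit 2) (by decide +kernel) (ClAll.succ (ClAll.succ ClAll.zero s30) n35)

def n50 : Cl (O (nat_lit 1)) (R (nat_lit 131281))
    (p (nat_lit 0xc1) (nat_lit 1) (p (nat_lit 0x119) (nat_lit 1) (p (nat_lit 0xd1) (nat_lit 0) (p (nat_lit 0x81) (nat_lit 0) (p (nat_lit 0x41) (nat_lit 1) (p (nat_lit 0x9088787069a) (nat_lit 0) (p (nat_lit 0x8878706861a) (nat_lit 0) (p (nat_lit 0x800080686058a) (nat_lit 0) (p (nat_lit 0x706058502) (nat_lit 0) (p (nat_lit 0x605850482) (nat_lit 0) (p (nat_lit 0x160014) (nat_lit 0) (p (nat_lit 0x16000c) (nat_lit 0) (p (nat_lit 0x68512) (nat_lit 0) (p (nat_lit 0x58492) (nat_lit 0) (p (nat_lit 0x48412) (nat_lit 0) (p (nat_lit 0x50312) (nat_lit 0) (p (nat_lit 0x40292) (nat_lit 0) (p (nat_lit 0x30212) (nat_lit 0) (p (nat_lit 0x38112) (nat_lit 0) (p (nat_lit 0x28092) (nat_lit 0) (p (nat_lit 0x18012) (nat_lit 0) pn)))))))))))))))))))))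 :=
  Cl.node (nat_lit 0x101) (nat_lit 2) (by decide +kernel) (ClAll.succ (ClAll.succ ClAll.zero n36) n37)

def n51 : Cl (O (nat_lit 1)) (R (nat_lit 131281))
    (p (nat_lit 0x101) (nat_lit 0) (p (nat_lit 0x111) (nat_lit 0) (p (nat_lit 0xd1) (nat_lit 1) (p (nat_lit 0x81) (nat_lit 0) (p (nat_lit 0x41) (nat_lit 1) (p (nat_lit 0x9088787069a) (nat_lit 0) (p (nat_lit 0x8878706861a) (nat_lit 0) (p (nat_lit 0x800080686058a) (nat_lit 0) (p (nat_lit 0x706058502) (nat_lit 0) (p (nat_lit 0x605850482) (nat_lit 0) (p (nat_lit 0x160014) (nat_lit 0) (p (nat_lit 0x16000c) (nat_lit 0) (p (nat_lit 0x68512) (nat_lit 0) (p (nat_lit 0x58492) (nat_lit 0) (p (nat_lit 0x48412) (nat_lit 0) (p (nat_lit 0x50312) (nat_lit 0) (p (nat_lit 0x40292) (nat_lit 0) (p (nat_lit 0x30212) (nat_lit 0) (p (nat_lit 0x38112) (nat_lit 0) (p (nat_lit 0x28092) (nat_lit 0) (p (nat_lit 0x18012) (nat_lit 0) pn)))))))))))))))))))))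 :=
  Cl.node (nat_lit 0x109) (nat_lit 2) (by decide +kernel) (ClAll.succ (ClAll.succ ClAll.zero s52) n38)

def n52 : Cl (O (nat_lit 1)) (R (nat_lit 131281))
    (p (nat_lit 0x101) (nat_lit 1) (p (nat_lit 0x111) (nat_lit 0) (p (nat_lit 0xd1) (nat_lit 1) (p (nat_lit 0x81) (nat_lit 0) (p (nat_lit 0x41) (nat_lit 1) (p (nat_lit 0x9088787069a) (nat_lit 0) (p (nat_lit 0x8878706861a) (nat_lit 0) (p (nat_lit 0x800080686058a) (nat_lit 0) (p (nat_lit 0x706058502) (nat_lit 0) (p (nat_lit 0x605850482) (nat_lit 0) (p (nat_lit 0x160014) (nat_lit 0) (p (nat_lit 0x16000c) (nat_lit 0) (p (nat_lit 0x68512) (nat_lit 0) (p (nat_lit 0x58492) (nat_lit 0) (p (nat_lit 0x48412) (nat_lit 0) (p (nat_lit 0x50312) (nat_lit 0) (p (nat_lit 0x40292) (nat_lit 0) (p (nat_lit 0x30212) (nat_lit 0) (p (nat_lit 0x38112) (nat_lit 0) (p (nat_lit 0x28092) (nat_lit 0) (p (nat_lit 0x18012) (nat_lit 0) pn)))))))))))))))))))))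 :=
  Cl.node (nat_lit 0x89) (nat_lit 2) (by decide +kernel) (ClAll.succ (ClAll.succ ClAll.zero n39) n40)

def n53 : Cl (O (nat_lit 1)) (R (nat_lit 131281))
    (p (nat_lit 0x89) (nat_lit 1) (p (nat_lit 0x111) (nat_lit 1) (p (nat_lit 0xd1) (nat_lit 1) (p (nat_lit 0x81) (nat_lit 0) (p (nat_lit 0x41) (nat_lit 1) (p (nat_lit 0x9088787069a) (nat_lit 0) (p (nat_lit 0x8878706861a) (nat_lit 0) (p (nat_lit 0x800080686058a) (nat_lit 0) (p (nat_lit 0x706058502) (nat_lit 0) (p (nat_lit 0x605850482) (nat_lit 0) (p (nat_lit 0x160014) (nat_lit 0) (p (nat_lit 0x16000c) (nat_lit 0) (p (nat_lit 0x68512) (nat_lit 0) (p (nat_lit 0x58492) (nat_lit 0) (p (nat_lit 0x48412) (nat_lit 0) (p (nat_lit 0x50312) (nat_lit 0) (p (nat_lit 0x40292) (nat_lit 0) (p (nat_lit 0x30212) (nat_lit 0) (p (nat_lit 0x38112) (nat_lit 0) (p (nat_lit 0x28092) (nat_lit 0) (p (nat_lit 0x18012) (nat_lit 0) pn)))))))))))))))))))))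 :=
  Cl.node (nat_lit 0xc9) (nat_lit 2) (by decide +kernel) (ClAll.succ (ClAll.succ ClAll.zero s71) n41)

def n54 : Cl (O (nat_lit 1)) (R (nat_lit 131281))
    (p (nat_lit 0x101) (nat_lit 0) (p (nat_lit 0x119) (nat_lit 0) (p (nat_lit 0xc1) (nat_lit 0) (p (nat_lit 0x81) (nat_lit 1) (p (nat_lit 0x41) (nat_lit 1) (p (nat_lit 0x9088787069a) (nat_lit 0) (p (nat_lit 0x8878706861a) (nat_lit 0) (p (nat_lit 0x800080686058a) (nat_lit 0) (p (nat_lit 0x706058502) (nat_lit 0) (p (nat_lit 0x605850482) (nat_lit 0) (p (nat_lit 0x160014) (nat_lit 0) (p (nat_lit 0x16000c) (nat_lit 0) (p (nat_lit 0x68512) (nat_lit 0) (p (nat_lit 0x58492) (nat_lit 0) (p (nat_lit 0x48412) (nat_lit 0) (p (nat_lit 0x50312) (nat_lit 0) (p (nat_lit 0x40292) (nat_lit 0) (p (nat_lit 0x30212) (nat_lit 0) (p (nat_lit 0x38112) (nat_lit 0) (p (nat_lit 0x28092) (nat_lit 0) (p (nat_lit 0x18012) (nat_lit 0) pn)))))))))))))))))))))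 :=
  Cl.node (nat_lit 0x109) (nat_lit 2) (by decide +kernel) (ClAll.succ (ClAll.succ ClAll.zero s74) s75)

def n55 : Cl (O (nat_lit 1)) (R (nat_lit 131281))
    (p (nat_lit 0x101) (nat_lit 1) (p (nat_lit 0x119) (nat_lit 0) (p (nat_lit 0xc1) (nat_lit 0) (p (nat_lit 0x81) (nat_lit 1) (p (nat_lit 0x41) (nat_lit 1) (p (nat_lit 0x9088787069a) (nat_lit 0) (p (nat_lit 0x8878706861a) (nat_lit 0) (p (nat_lit 0x800080686058a) (nat_lit 0) (p (nat_lit 0x706058502) (nat_lit 0) (p (nat_lit 0x605850482) (nat_lit 0) (p (nat_lit 0x160014) (nat_lit 0) (p (nat_lit 0x16000c) (nat_lit 0) (p (nat_lit 0x68512) (nat_lit 0) (p (nat_lit 0x58492) (nat_lit 0) (p (nat_lit 0x48412) (nat_lit 0) (p (nat_lit 0x50312) (nat_lit 0) (p (nat_lit 0x40292) (nat_lit 0) (p (nat_lit 0x30212) (nat_lit 0) (p (nat_lit 0x38112) (nat_lit 0) (p (nat_lit 0x28092) (nat_lit 0) (p (nat_lit 0x18012) (nat_lit 0) pn)))))))))))))))))))))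 :=
  Cl.node (nat_lit 0xc9) (nat_lit 2) (by decide +kernel) (ClAll.succ (ClAll.succ ClAll.zero s76) s77)

def n56 : Cl (O (nat_lit 1)) (R (nat_lit 131281))
    (p (nat_lit 0xc9) (nat_lit 0) (p (nat_lit 0x119) (nat_lit 1) (p (nat_lit 0xc1) (nat_lit 0) (p (nat_lit 0x81) (nat_lit 1) (p (nat_lit 0x41) (nat_lit 1) (p (nat_lit 0x9088787069a) (nat_lit 0) (p (nat_lit 0x8878706861a) (nat_lit 0) (p (nat_lit 0x800080686058a) (nat_lit 0) (p (nat_lit 0x706058502) (nat_lit 0) (p (nat_lit 0x605850482) (nat_lit 0) (p (nat_lit 0x160014) (nat_lit 0) (p (nat_lit 0x16000c) (nat_lit 0) (p (nat_lit 0x68512) (nat_lit 0) (p (nat_lit 0x58492) (nat_lit 0) (p (nat_lit 0x48412) (nat_lit 0) (p (nat_lit 0x50312) (nat_lit 0) (p (nat_lit 0x40292) (nat_lit 0) (p (nat_lit 0x30212) (nat_lit 0) (p (nat_lit 0x38112) (nat_lit 0) (p (nat_lit 0x28092) (nat_lit 0) (p (nat_lit 0x18012) (nat_lit 0) pn)))))))))))))))))))))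 :=
  Cl.node (nat_lit 0xd1) (nat_lit 2) (by decide +kernel) (ClAll.succ (ClAll.succ ClAll.zero s78) s79)

def n57 : Cl (O (nat_lit 1)) (R (nat_lit 131281))
    (p (nat_lit 0xc9) (nat_lit 1) (p (nat_lit 0x119) (nat_lit 1) (p (nat_lit 0xc1) (nat_lit 0) (p (nat_lit 0x81) (nat_lit 1) (p (nat_lit 0x41) (nat_lit 1) (p (nat_lit 0x9088787069a) (nat_lit 0) (p (nat_lit 0x8878706861a) (nat_lit 0) (p (nat_lit 0x800080686058a) (nat_lit 0) (p (nat_lit 0x706058502) (nat_lit 0) (p (nat_lit 0x605850482) (nat_lit 0) (p (nat_lit 0x160014) (nat_lit 0) (p (nat_lit 0x16000c) (nat_lit 0) (p (nat_lit 0x68512) (nat_lit 0) (p (nat_lit 0x58492) (nat_lit 0) (p (nat_lit 0x48412) (nat_lit 0) (p (nat_lit 0x50312) (nat_lit 0) (p (nat_lit 0x40292) (nat_lit 0) (p (nat_lit 0x30212) (nat_lit 0) (p (nat_lit 0x38112) (nat_lit 0) (p (nat_lit 0x28092) (nat_lit 0) (p (nat_lit 0x18012) (nat_lit 0) pn)))))))))))))))))))))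 :=
  Cl.node (nat_lit 0x109) (nat_lit 2) (by decide +kernel) (ClAll.succ (ClAll.succ ClAll.zero n42) s82)

def n58 : Cl (O (nat_lit 1)) (R (nat_lit 131281))
    (p (nat_lit 0x119) (nat_lit 0) (p (nat_lit 0xd1) (nat_lit 0) (p (nat_lit 0x89) (nat_lit 0) (p (nat_lit 0x41) (nat_lit 0) (p (nat_lit 0x9088787069a) (nat_lit 0) (p (nat_lit 0x8878706861a) (nat_lit 0) (p (nat_lit 0x800080686058a) (nat_lit 0) (p (nat_lit 0x706058502) (nat_lit 0) (p (nat_lit 0x605850482) (nat_lit 0) (p (nat_lit 0x160014) (nat_lit 0) (p (nat_lit 0x16000c) (nat_lit 0) (p (nat_lit 0x68512) (nat_lit 0) (p (nat_lit 0x58492) (nat_lit 0) (p (nat_lit 0x48412) (nat_lit 0) (p (nat_lit 0x50312) (nat_lit 0) (p (nat_lit 0x40292) (nat_lit 0) (p (nat_lit 0x30212) (nat_lit 0) (p (nat_lit 0x38112) (nat_lit 0) (p (nat_lit 0x28092) (nat_lit 0) (p (nat_lit 0x18012) (nat_lit 0) pn)))))))))))))))))))) :=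
  Cl.node (nat_lit 0x101) (nat_lit 2) (by decide +kernel) (ClAll.succ (ClAll.succ ClAll.zero s0) n43)

def n59 : Cl (O (nat_lit 1)) (R (nat_lit 131281))
    (p (nat_lit 0x119) (nat_lit 1) (p (nat_lit 0xd1) (nat_lit 0) (p (nat_lit 0x89) (nat_lit 0) (p (nat_lit 0x41) (nat_lit 0) (p (nat_lit 0x9088787069a) (nat_lit 0) (p (nat_lit 0x8878706861a) (nat_lit 0) (p (nat_lit 0x800080686058a) (nat_lit 0) (p (nat_lit 0x706058502) (nat_lit 0) (p (nat_lit 0x605850482) (nat_lit 0) (p (nat_lit 0x160014) (nat_lit 0) (p (nat_lit 0x16000c) (nat_lit 0) (p (nat_lit 0x68512) (nat_lit 0) (p (nat_lit 0x58492) (nat_lit 0) (p (nat_lit 0x48412) (nat_lit 0) (p (nat_lit 0x50312) (nat_lit 0) (p (nat_lit 0x40292) (nat_lit 0) (p (nat_lit 0x30212) (nat_lit 0) (p (nat_lit 0x38112) (nat_lit 0) (p (nat_lit 0x28092) (nat_lit 0) (p (nat_lit 0x18012) (nat_lit 0) pn)))))))))))))))))))) :=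
  Cl.node (nat_lit 0xc1) (nat_lit 2) (by decide +kernel) (ClAll.succ (ClAll.succ ClAll.zero s3) n44)

def n60 : Cl (O (nat_lit 1)) (R (nat_lit 131281))
    (p (nat_lit 0x111) (nat_lit 0) (p (nat_lit 0xd1) (nat_lit 1) (p (nat_lit 0x89) (nat_lit 0) (p (nat_lit 0x41) (nat_lit 0) (p (nat_lit 0x9088787069a) (nat_lit 0) (p (nat_lit 0x8878706861a) (nat_lit 0) (p (nat_lit 0x800080686058a) (nat_lit 0) (p (nat_lit 0x706058502) (nat_lit 0) (p (nat_lit 0x605850482) (nat_lit 0) (p (nat_lit 0x160014) (nat_lit 0) (p (nat_lit 0x16000c) (nat_lit 0) (p (nat_lit 0x68512) (nat_lit 0) (p (nat_lit 0x58492) (nat_lit 0) (p (nat_lit 0x48412) (nat_lit 0) (p (nat_lit 0x50312) (nat_lit 0) (p (nat_lit 0x40292) (nat_lit 0) (p (nat_lit 0x30212) (nat_lit 0) (p (nat_lit 0x38112) (nat_lit 0) (p (nat_lit 0x28092) (nat_lit 0) (p (nat_lit 0x18012) (nat_lit 0) pn)))))))))))))))))))) :=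
  Cl.node (nat_lit 0x101) (nat_lit 2) (by decide +kernel) (ClAll.succ (ClAll.succ ClAll.zero s10) n45)

def n61 : Cl (O (nat_lit 1)) (R (nat_lit 131281))
    (p (nat_lit 0x111) (nat_lit 1) (p (nat_lit 0xd1) (nat_lit 1) (p (nat_lit 0x89) (nat_lit 0) (p (nat_lit 0x41) (nat_lit 0) (p (nat_lit 0x9088787069a) (nat_lit 0) (p (nat_lit 0x8878706861a) (nat_lit 0) (p (nat_lit 0x800080686058a) (nat_lit 0) (p (nat_lit 0x706058502) (nat_lit 0) (p (nat_lit 0x605850482) (nat_lit 0) (p (nat_lit 0x160014) (nat_lit 0) (p (nat_lit 0x16000c) (nat_lit 0) (p (nat_lit 0x68512) (nat_lit 0) (p (nat_lit 0x58492) (nat_lit 0) (p (nat_lit 0x48412) (nat_lit 0) (p (nat_lit 0x50312) (nat_lit 0) (p (nat_lit 0x40292) (nat_lit 0) (p (nat_lit 0x30212) (nat_lit 0) (p (nat_lit 0x38112) (nat_lit 0) (p (nat_lit 0x28092) (nat_lit 0) (p (nat_lit 0x18012) (nat_lit 0) pn)))))))))))))))))))) :=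
  Cl.node (nat_lit 0x81) (nat_lit 2) (by decide +kernel) (ClAll.succ (ClAll.succ ClAll.zero s13) n46)

def n62 : Cl (O (nat_lit 1)) (R (nat_lit 131281))
    (p (nat_lit 0x119) (nat_lit 0) (p (nat_lit 0xc9) (nat_lit 0) (p (nat_lit 0x89) (nat_lit 1) (p (nat_lit 0x41) (nat_lit 0) (p (nat_lit 0x9088787069a) (nat_lit 0) (p (nat_lit 0x8878706861a) (nat_lit 0) (p (nat_lit 0x800080686058a) (nat_lit 0) (p (nat_lit 0x706058502) (nat_lit 0) (p (nat_lit 0x605850482) (nat_lit 0) (p (nat_lit 0x160014) (nat_lit 0) (p (nat_lit 0x16000c) (nat_lit 0) (p (nat_lit 0x68512) (nat_lit 0) (p (nat_lit 0x58492) (nat_lit 0) (p (nat_lit 0x48412) (nat_lit 0) (p (nat_lit 0x50312) (nat_lit 0) (p (nat_lit 0x40292) (nat_lit 0) (p (nat_lit 0x30212) (nat_lit 0) (p (nat_lit 0x38112) (nat_lit 0) (p (nat_lit 0x28092) (nat_lit 0) (p (nat_lit 0x18012) (nat_lit 0) pn)))))))))))))))))))) :=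
  Cl.node (nat_lit 0x101) (nat_lit 2) (by decide +kernel) (ClAll.succ (ClAll.succ ClAll.zero s16) s17)

def n63 : Cl (O (nat_lit 1)) (R (nat_lit 131281))
    (p (nat_lit 0x119) (nat_lit 1) (p (nat_lit 0xc9) (nat_lit 0) (p (nat_lit 0x89) (nat_lit 1) (p (nat_lit 0x41) (nat_lit 0) (p (nat_lit 0x9088787069a) (nat_lit 0) (p (nat_lit 0x8878706861a) (nat_lit 0) (p (nat_lit 0x800080686058a) (nat_lit 0) (p (nat_lit 0x706058502) (nat_lit 0) (p (nat_lit 0x605850482) (nat_lit 0) (p (nat_lit 0x160014) (nat_lit 0) (p (nat_lit 0x16000c) (nat_lit 0) (p (nat_lit 0x68512) (nat_lit 0) (p (nat_lit 0x58492) (nat_lit 0) (p (nat_lit 0x48412) (nat_lit 0) (p (nat_lit 0x50312) (nat_lit 0) (p (nat_lit 0x40292) (nat_lit 0) (p (nat_lit 0x30212) (nat_lit 0) (p (nat_lit 0x38112) (nat_lit 0) (p (nat_lit 0x28092) (nat_lit 0) (p (nat_lit 0x18012) (nat_lit 0) pn)))))))))))))))))))) :=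
  Cl.node (nat_lit 0xc1) (nat_lit 2) (by decide +kernel) (ClAll.succ (ClAll.succ ClAll.zero s18) s19)

def n64 : Cl (O (nat_lit 1)) (R (nat_lit 131281))
    (p (nat_lit 0x119) (nat_lit 0) (p (nat_lit 0xd1) (nat_lit 0) (p (nat_lit 0x81) (nat_lit 0) (p (nat_lit 0x41) (nat_lit 1) (p (nat_lit 0x9088787069a) (nat_lit 0) (p (nat_lit 0x8878706861a) (nat_lit 0) (p (nat_lit 0x800080686058a) (nat_lit 0) (p (nat_lit 0x706058502) (nat_lit 0) (p (nat_lit 0x605850482) (nat_lit 0) (p (nat_lit 0x160014) (nat_lit 0) (p (nat_lit 0x16000c) (nat_lit 0) (p (nat_lit 0x68512) (nat_lit 0) (p (nat_lit 0x58492) (nat_lit 0) (p (nat_lit 0x48412) (nat_lit 0) (p (nat_lit 0x50312) (nat_lit 0) (p (nat_lit 0x40292) (nat_lit 0) (p (nat_lit 0x30212) (nat_lit 0) (p (nat_lit 0x38112) (nat_lit 0) (p (nat_lit 0x28092) (nat_lit 0) (p (nat_lit 0x18012) (nat_lit 0) pn)))))))))))))))))))) :=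
  Cl.node (nat_lit 0x101) (nat_lit 2) (by decide +kernel) (ClAll.succ (ClAll.succ ClAll.zero n47) n48)

def n65 : Cl (O (nat_lit 1)) (R (nat_lit 131281))
    (p (nat_lit 0x119) (nat_lit 1) (p (nat_lit 0xd1) (nat_lit 0) (p (nat_lit 0x81) (nat_lit 0) (p (nat_lit 0x41) (nat_lit 1) (p (nat_lit 0x9088787069a) (nat_lit 0) (p (nat_lit 0x8878706861a) (nat_lit 0) (p (nat_lit 0x800080686058a) (nat_lit 0) (p (nat_lit 0x706058502) (nat_lit 0) (p (nat_lit 0x605850482) (nat_lit 0) (p (nat_lit 0x160014) (nat_lit 0) (p (nat_lit 0x16000c) (nat_lit 0) (p (nat_lit 0x68512) (nat_lit 0) (p (nat_lit 0x58492) (nat_lit 0) (p (nat_lit 0x48412) (nat_lit 0) (p (nat_lit 0x50312) (nat_lit 0) (p (nat_lit 0x40292) (nat_lit 0) (p (nat_lit 0x30212) (nat_lit 0) (p (nat_lit 0x38112) (nat_lit 0) (p (nat_lit 0x28092) (nat_lit 0) (p (nat_lit 0x18012) (nat_lit 0) pn)))))))))))))))))))) :=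
  Cl.node (nat_lit 0xc1) (nat_lit 2) (by decide +kernel) (ClAll.succ (ClAll.succ ClAll.zero n49) n50)

def n66 : Cl (O (nat_lit 1)) (R (nat_lit 131281))
    (p (nat_lit 0x111) (nat_lit 0) (p (nat_lit 0xd1) (nat_lit 1) (p (nat_lit 0x81) (nat_lit 0) (p (nat_lit 0x41) (nat_lit 1) (p (nat_lit 0x9088787069a) (nat_lit 0) (p (nat_lit 0x8878706861a) (nat_lit 0) (p (nat_lit 0x800080686058a) (nat_lit 0) (p (nat_lit 0x706058502) (nat_lit 0) (p (nat_lit 0x605850482) (nat_lit 0) (p (nat_lit 0x160014) (nat_lit 0) (p (nat_lit 0x16000c) (nat_lit 0) (p (nat_lit 0x68512) (nat_lit 0) (p (nat_lit 0x58492) (nat_lit 0) (p (nat_lit 0x48412) (nat_lit 0) (p (nat_lit 0x50312) (nat_lit 0) (p (nat_lit 0x40292) (nat_lit 0) (p (nat_lit 0x30212) (nat_lit 0) (p (nat_lit 0x38112) (nat_lit 0) (p (nat_lit 0x28092) (nat_lit 0) (p (nat_lit 0x18012) (nat_lit 0) pn)))))))))))))))))))) :=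
  Cl.node (nat_lit 0x101) (nat_lit 2) (by decide +kernel) (ClAll.succ (ClAll.succ ClAll.zero n51) n52)

def n67 : Cl (O (nat_lit 1)) (R (nat_lit 131281))
    (p (nat_lit 0x111) (nat_lit 1) (p (nat_lit 0xd1) (nat_lit 1) (p (nat_lit 0x81) (nat_lit 0) (p (nat_lit 0x41) (nat_lit 1) (p (nat_lit 0x9088787069a) (nat_lit 0) (p (nat_lit 0x8878706861a) (nat_lit 0) (p (nat_lit 0x800080686058a) (nat_lit 0) (p (nat_lit 0x706058502) (nat_lit 0) (p (nat_lit 0x605850482) (nat_lit 0) (p (nat_lit 0x160014) (nat_lit 0) (p (nat_lit 0x16000c) (nat_lit 0) (p (nat_lit 0x68512) (nat_lit 0) (p (nat_lit 0x58492) (nat_lit 0) (p (nat_lit 0x48412) (nat_lit 0) (p (nat_lit 0x50312) (nat_lit 0) (p (nat_lit 0x40292) (nat_lit 0) (p (nat_lit 0x30212) (nat_lit 0) (p (nat_lit 0x38112) (nat_lit 0) (p (nat_lit 0x28092) (nat_lit 0) (p (nat_lit 0x18012) (nat_lit 0) pn)))))))))))))))))))) :=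
  Cl.node (nat_lit 0x89) (nat_lit 2) (by decide +kernel) (ClAll.succ (ClAll.succ ClAll.zero s70) n53)

def n68 : Cl (O (nat_lit 1)) (R (nat_lit 131281))
    (p (nat_lit 0x119) (nat_lit 0) (p (nat_lit 0xc1) (nat_lit 0) (p (nat_lit 0x81) (nat_lit 1) (p (nat_lit 0x41) (nat_lit 1) (p (nat_lit 0x9088787069a) (nat_lit 0) (p (nat_lit 0x8878706861a) (nat_lit 0) (p (nat_lit 0x800080686058a) (nat_lit 0) (p (nat_lit 0x706058502) (nat_lit 0) (p (nat_lit 0x605850482) (nat_lit 0) (p (nat_lit 0x160014) (nat_lit 0) (p (nat_lit 0x16000c) (nat_lit 0) (p (nat_lit 0x68512) (nat_lit 0) (p (nat_lit 0x58492) (nat_lit 0) (p (nat_lit 0x48412) (nat_lit 0) (p (nat_lit 0x50312) (nat_lit 0) (p (nat_lit 0x40292) (nat_lit 0) (p (nat_lit 0x30212) (nat_lit 0) (p (nat_lit 0x38112) (nat_lit 0) (p (nat_lit 0x28092) (nat_lit 0) (p (nat_lit 0x18012) (nat_lit 0) pn)))))))))))))))))))) :=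
  Cl.node (nat_lit 0x101) (nat_lit 2) (by decide +kernel) (ClAll.succ (ClAll.succ ClAll.zero n54) n55)

def n69 : Cl (O (nat_lit 1)) (R (nat_lit 131281))
    (p (nat_lit 0x119) (nat_lit 1) (p (nat_lit 0xc1) (nat_lit 0) (p (nat_lit 0x81) (nat_lit 1) (p (nat_lit 0x41) (nat_lit 1) (p (nat_lit 0x9088787069a) (nat_lit 0) (p (nat_lit 0x8878706861a) (nat_lit 0) (p (nat_lit 0x800080686058a) (nat_lit 0) (p (nat_lit 0x706058502) (nat_lit 0) (p (nat_lit 0x605850482) (nat_lit 0) (p (nat_lit 0x160014) (nat_lit 0) (p (nat_lit 0x16000c) (nat_lit 0) (p (nat_lit 0x68512) (nat_lit 0) (p (nat_lit 0x58492) (nat_lit 0) (p (nat_lit 0x48412) (nat_lit 0) (p (nat_lit 0x50312) (nat_lit 0) (p (nat_lit 0x40292) (nat_lit 0) (p (nat_lit 0x30212) (nat_lit 0) (p (nat_lit 0x38112) (nat_lit 0) (p (nat_lit 0x28092) (nat_lit 0) (p (nat_lit 0x18012) (nat_lit 0) pn)))))))))))))))))))) :=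
  Cl.node (nat_lit 0xc9) (nat_lit 2) (by decide +kernel) (ClAll.succ (ClAll.succ ClAll.zero n56) n57)

def n70 : Cl (O (nat_lit 1)) (R (nat_lit 131281))
    (p (nat_lit 0xd1) (nat_lit 0) (p (nat_lit 0x89) (nat_lit 0) (p (nat_lit 0x41) (nat_lit 0) (p (nat_lit 0x9088787069a) (nat_lit 0) (p (nat_lit 0x8878706861a) (nat_lit 0) (p (nat_lit 0x800080686058a) (nat_lit 0) (p (nat_lit 0x706058502) (nat_lit 0) (p (nat_lit 0x605850482) (nat_lit 0) (p (nat_lit 0x160014) (nat_lit 0) (p (nat_lit 0x16000c) (nat_lit 0) (p (nat_lit 0x68512) (nat_lit 0) (p (nat_lit 0x58492) (nat_lit 0) (p (nat_lit 0x48412) (nat_lit 0) (p (nat_lit 0x50312) (nat_lit 0) (p (nat_lit 0x40292) (nat_lit 0) (p (nat_lit 0x30212) (nat_lit 0) (p (nat_lit 0x38112) (nat_lit 0) (p (nat_lit 0x28092) (nat_lit 0) (p (nat_lit 0x18012) (nat_lit 0) pn))))))))))))))))))) :=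
  Cl.node (nat_lit 0x119) (nat_lit 2) (by decide +kernel) (ClAll.succ (ClAll.succ ClAll.zero n58) n59)

def n71 : Cl (O (nat_lit 1)) (R (nat_lit 131281))
    (p (nat_lit 0xd1) (nat_lit 1) (p (nat_lit 0x89) (nat_lit 0) (p (nat_lit 0x41) (nat_lit 0) (p (nat_lit 0x9088787069a) (nat_lit 0) (p (nat_lit 0x8878706861a) (nat_lit 0) (p (nat_lit 0x800080686058a) (nat_lit 0) (p (nat_lit 0x706058502) (nat_lit 0) (p (nat_lit 0x605850482) (nat_lit 0) (p (nat_lit 0x160014) (nat_lit 0) (p (nat_lit 0x16000c) (nat_lit 0) (p (nat_lit 0x68512) (nat_lit 0) (p (nat_lit 0x58492) (nat_lit 0) (p (nat_lit 0x48412) (nat_lit 0) (p (nat_lit 0x50312) (nat_lit 0) (p (nat_lit 0x40292) (nat_lit 0) (p (nat_lit 0x30212) (nat_lit 0) (p (nat_lit 0x38112) (nat_lit 0) (p (nat_lit 0x28092) (nat_lit 0) (p (nat_lit 0x18012) (nat_lit 0) pn))))))))))))))))))) :=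
  Cl.node (nat_lit 0x111) (nat_lit 2) (by decide +kernel) (ClAll.succ (ClAll.succ ClAll.zero n60) n61)

def n72 : Cl (O (nat_lit 1)) (R (nat_lit 131281))
    (p (nat_lit 0xc9) (nat_lit 0) (p (nat_lit 0x89) (nat_lit 1) (p (nat_lit 0x41) (nat_lit 0) (p (nat_lit 0x9088787069a) (nat_lit 0) (p (nat_lit 0x8878706861a) (nat_lit 0) (p (nat_lit 0x800080686058a) (nat_lit 0) (p (nat_lit 0x706058502) (nat_lit 0) (p (nat_lit 0x605850482) (nat_lit 0) (p (nat_lit 0x160014) (nat_lit 0) (p (nat_lit 0x16000c) (nat_lit 0) (p (nat_lit 0x68512) (nat_lit 0) (p (nat_lit 0x58492) (nat_lit 0) (p (nat_lit 0x48412) (nat_lit 0) (p (nat_lit 0x50312) (nat_lit 0) (p (nat_lit 0x40292) (nat_lit 0) (p (nat_lit 0x30212) (nat_lit 0) (p (nat_lit 0x38112) (nat_lit 0) (p (nat_lit 0x28092) (nat_lit 0) (p (nat_lit 0x18012) (nat_lit 0) pn))))))))))))))))))) :=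
  Cl.node (nat_lit 0x119) (nat_lit 2) (by decide +kernel) (ClAll.succ (ClAll.succ ClAll.zero n62) n63)

def n73 : Cl (O (nat_lit 1)) (R (nat_lit 131281))
    (p (nat_lit 0xd1) (nat_lit 0) (p (nat_lit 0x81) (nat_lit 0) (p (nat_lit 0x41) (nat_lit 1) (p (nat_lit 0x9088787069a) (nat_lit 0) (p (nat_lit 0x8878706861a) (nat_lit 0) (p (nat_lit 0x800080686058a) (nat_lit 0) (p (nat_lit 0x706058502) (nat_lit 0) (p (nat_lit 0x605850482) (nat_lit 0) (p (nat_lit 0x160014) (nat_lit 0) (p (nat_lit 0x16000c) (nat_lit 0) (p (nat_lit 0x68512) (nat_lit 0) (p (nat_lit 0x58492) (nat_lit 0) (p (nat_lit 0x48412) (nat_lit 0) (p (nat_lit 0x50312) (nat_lit 0) (p (nat_lit 0x40292) (nat_lit 0) (p (nat_lit 0x30212) (nat_lit 0) (p (nat_lit 0x38112) (nat_lit 0) (p (nat_lit 0x28092) (nat_lit 0) (p (nat_lit 0x18012) (nat_lit 0) pn))))))))))))))))))) :=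
  Cl.node (nat_lit 0x119) (nat_lit 2) (by decide +kernel) (ClAll.succ (ClAll.succ ClAll.zero n64) n65)

def n74 : Cl (O (nat_lit 1)) (R (nat_lit 131281))
    (p (nat_lit 0xd1) (nat_lit 1) (p (nat_lit 0x81) (nat_lit 0) (p (nat_lit 0x41) (nat_lit 1) (p (nat_lit 0x9088787069a) (nat_lit 0) (p (nat_lit 0x8878706861a) (nat_lit 0) (p (nat_lit 0x800080686058a) (nat_lit 0) (p (nat_lit 0x706058502) (nat_lit 0) (p (nat_lit 0x605850482) (nat_lit 0) (p (nat_lit 0x160014) (nat_lit 0) (p (nat_lit 0x16000c) (nat_lit 0) (p (nat_lit 0x68512) (nat_lit 0) (p (nat_lit 0x58492) (nat_lit 0) (p (nat_lit 0x48412) (nat_lit 0) (p (nat_lit 0x50312) (nat_lit 0) (p (nat_lit 0x40292) (nat_lit 0) (p (nat_lit 0x30212) (nat_lit 0) (p (nat_lit 0x38112) (nat_lit 0) (p (nat_lit 0x28092) (nat_lit 0) (p (nat_lit 0x18012) (nat_lit 0) pn))))))))))))))))))) :=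
  Cl.node (nat_lit 0x111) (nat_lit 2) (by decide +kernel) (ClAll.succ (ClAll.succ ClAll.zero n66) n67)

def n75 : Cl (O (nat_lit 1)) (R (nat_lit 131281))
    (p (nat_lit 0xc1) (nat_lit 0) (p (nat_lit 0x81) (nat_lit 1) (p (nat_lit 0x41) (nat_lit 1) (p (nat_lit 0x9088787069a) (nat_lit 0) (p (nat_lit 0x8878706861a) (nat_lit 0) (p (nat_lit 0x800080686058a) (nat_lit 0) (p (nat_lit 0x706058502) (nat_lit 0) (p (nat_lit 0x605850482) (nat_lit 0) (p (nat_lit 0x160014) (nat_lit 0) (p (nat_lit 0x16000c) (nat_lit 0) (p (nat_lit 0x68512) (nat_lit 0) (p (nat_lit 0x58492) (nat_lit 0) (p (nat_lit 0x48412) (nat_lit 0) (p (nat_lit 0x50312) (nat_lit 0) (p (nat_lit 0x40292) (nat_lit 0) (p (nat_lit 0x30212) (nat_lit 0) (p (nat_lit 0x38112) (nat_lit 0) (p (nat_lit 0x28092) (nat_lit 0) (p (nat_lit 0x18012) (nat_lit 0) pn))))))))))))))))))) :=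
  Cl.node (nat_lit 0x119) (nat_lit 2) (by decide +kernel) (ClAll.succ (ClAll.succ ClAll.zero n68) n69)

def n76 : Cl (O (nat_lit 1)) (R (nat_lit 131281))
    (p (nat_lit 0x89) (nat_lit 0) (p (nat_lit 0x41) (nat_lit 0) (p (nat_lit 0x9088787069a) (nat_lit 0) (p (nat_lit 0x8878706861a) (nat_lit 0) (p (nat_lit 0x800080686058a) (nat_lit 0) (p (nat_lit 0x706058502) (nat_lit 0) (p (nat_lit 0x605850482) (nat_lit 0) (p (nat_lit 0x160014) (nat_lit 0) (p (nat_lit 0x16000c) (nat_lit 0) (p (nat_lit 0x68512) (nat_lit 0) (p (nat_lit 0x58492) (nat_lit 0) (p (nat_lit 0x48412) (nat_lit 0) (p (nat_lit 0x50312) (nat_lit 0) (p (nat_lit 0x40292) (nat_lit 0) (p (nat_lit 0x30212) (nat_lit 0) (p (nat_lit 0x38112) (nat_lit 0) (p (nat_lit 0x28092) (nat_lit 0) (p (nat_lit 0x18012) (nat_lit 0) pn)))))))))))))))))) :=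
  Cl.node (nat_lit 0xd1) (nat_lit 2) (by decide +kernel) (ClAll.succ (ClAll.succ ClAll.zero n70) n71)

def n77 : Cl (O (nat_lit 1)) (R (nat_lit 131281))
    (p (nat_lit 0x89) (nat_lit 1) (p (nat_lit 0x41) (nat_lit 0) (p (nat_lit 0x9088787069a) (nat_lit 0) (p (nat_lit 0x8878706861a) (nat_lit 0) (p (nat_lit 0x800080686058a) (nat_lit 0) (p (nat_lit 0x706058502) (nat_lit 0) (p (nat_lit 0x605850482) (nat_lit 0) (p (nat_lit 0x160014) (nat_lit 0) (p (nat_lit 0x16000c) (nat_lit 0) (p (nat_lit 0x68512) (nat_lit 0) (p (nat_lit 0x58492) (nat_lit 0) (p (nat_lit 0x48412) (nat_lit 0) (p (nat_lit 0x50312) (nat_lit 0) (p (nat_lit 0x40292) (nat_lit 0) (p (nat_lit 0x30212) (nat_lit 0) (p (nat_lit 0x38112) (nat_lit 0) (p (nat_lit 0x28092) (nat_lit 0) (p (nat_lit 0x18012) (nat_lit 0) pn)))))))))))))))))) :=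
  Cl.node (nat_lit 0xc9) (nat_lit 2) (by decide +kernel) (ClAll.succ (ClAll.succ ClAll.zero n72) s20)

def n78 : Cl (O (nat_lit 1)) (R (nat_lit 131281))
    (p (nat_lit 0x81) (nat_lit 0) (p (nat_lit 0x41) (nat_lit 1) (p (nat_lit 0x9088787069a) (nat_lit 0) (p (nat_lit 0x8878706861a) (nat_lit 0) (p (nat_lit 0x800080686058a) (nat_lit 0) (p (nat_lit 0x706058502) (nat_lit 0) (p (nat_lit 0x605850482) (nat_lit 0) (p (nat_lit 0x160014) (nat_lit 0) (p (nat_lit 0x16000c) (nat_lit 0) (p (nat_lit 0x68512) (nat_lit 0) (p (nat_lit 0x58492) (nat_lit 0) (p (nat_lit 0x48412) (nat_lit 0) (p (nat_lit 0x50312) (nat_lit 0) (p (nat_lit 0x40292) (nat_lit 0) (p (nat_lit 0x30212) (nat_lit 0) (p (nat_lit 0x38112) (nat_lit 0) (p (nat_lit 0x28092) (nat_lit 0) (p (nat_lit 0x18012) (nat_lit 0) pn)))))))))))))))))) :=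
  Cl.node (nat_lit 0xd1) (nat_lit 2) (by decide +kernel) (ClAll.succ (ClAll.succ ClAll.zero n73) n74)

def n79 : Cl (O (nat_lit 1)) (R (nat_lit 131281))
    (p (nat_lit 0x81) (nat_lit 1) (p (nat_lit 0x41) (nat_lit 1) (p (nat_lit 0x9088787069a) (nat_lit 0) (p (nat_lit 0x8878706861a) (nat_lit 0) (p (nat_lit 0x800080686058a) (nat_lit 0) (p (nat_lit 0x706058502) (nat_lit 0) (p (nat_lit 0x605850482) (nat_lit 0) (p (nat_lit 0x160014) (nat_lit 0) (p (nat_lit 0x16000c) (nat_lit 0) (p (nat_lit 0x68512) (nat_lit 0) (p (nat_lit 0x58492) (nat_lit 0) (p (nat_lit 0x48412) (nat_lit 0) (p (nat_lit 0x50312) (nat_lit 0) (p (nat_lit 0x40292) (nat_lit 0) (p (nat_lit 0x30212) (nat_lit 0) (p (nat_lit 0x38112) (nat_lit 0) (p (nat_lit 0x28092) (nat_lit 0) (p (nat_lit 0x18012) (nat_lit 0) pn)))))))))))))))))) :=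
  Cl.node (nat_lit 0xc1) (nat_lit 2) (by decide +kernel) (ClAll.succ (ClAll.succ ClAll.zero n75) s83)

def n80 : Cl (O (nat_lit 1)) (R (nat_lit 131281))
    (p (nat_lit 0x41) (nat_lit 0) (p (nat_lit 0x9088787069a) (nat_lit 0) (p (nat_lit 0x8878706861a) (nat_lit 0) (p (nat_lit 0x800080686058a) (nat_lit 0) (p (nat_lit 0x706058502) (nat_lit 0) (p (nat_lit 0x605850482) (nat_lit 0) (p (nat_lit 0x160014) (nat_lit 0) (p (nat_lit 0x16000c) (nat_lit 0) (p (nat_lit 0x68512) (nat_lit 0) (p (nat_lit 0x58492) (nat_lit 0) (p (nat_lit 0x48412) (nat_lit 0) (p (nat_lit 0x50312) (nat_lit 0) (p (nat_lit 0x40292) (nat_lit 0) (p (nat_lit 0x30212) (nat_lit 0) (p (nat_lit 0x38112) (nat_lit 0) (p (nat_lit 0x28092) (nat_lit 0) (p (nat_lit 0x18012) (nat_lit 0) pn))))))))))))))))) :=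
  Cl.node (nat_lit 0x89) (nat_lit 2) (by decide +kernel) (ClAll.succ (ClAll.succ ClAll.zero n76) n77)

def n81 : Cl (O (nat_lit 1)) (R (nat_lit 131281))
    (p (nat_lit 0x41) (nat_lit 1) (p (nat_lit 0x9088787069a) (nat_lit 0) (p (nat_lit 0x8878706861a) (nat_lit 0) (p (nat_lit 0x800080686058a) (nat_lit 0) (p (nat_lit 0x706058502) (nat_lit 0) (p (nat_lit 0x605850482) (nat_lit 0) (p (nat_lit 0x160014) (nat_lit 0) (p (nat_lit 0x16000c) (nat_lit 0) (p (nat_lit 0x68512) (nat_lit 0) (p (nat_lit 0x58492) (nat_lit 0) (p (nat_lit 0x48412) (nat_lit 0) (p (nat_lit 0x50312) (nat_lit 0) (p (nat_lit 0x40292) (nat_lit 0) (p (nat_lit 0x30212) (nat_lit 0) (p (nat_lit 0x38112) (nat_lit 0) (p (nat_lit 0x28092) (nat_lit 0) (p (nat_lit 0x18012) (nat_lit 0) pn))))))))))))))))) :=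
  Cl.node (nat_lit 0x81) (nat_lit 2) (by decide +kernel) (ClAll.succ (ClAll.succ ClAll.zero n78) n79)

def n82 : Cl (O (nat_lit 1)) (R (nat_lit 131281))
    (p (nat_lit 0x9088787069a) (nat_lit 0) (p (nat_lit 0x8878706861a) (nat_lit 0) (p (nat_lit 0x800080686058a) (nat_lit 0) (p (nat_lit 0x706058502) (nat_lit 0) (p (nat_lit 0x605850482) (nat_lit 0) (p (nat_lit 0x160014) (nat_lit 0) (p (nat_lit 0x16000c) (nat_lit 0) (p (nat_lit 0x68512) (nat_lit 0) (p (nat_lit 0x58492) (nat_lit 0) (p (nat_lit 0x48412) (nat_lit 0) (p (nat_lit 0x50312) (nat_lit 0) (p (nat_lit 0x40292) (nat_lit 0) (p (nat_lit 0x30212) (nat_lit 0) (p (nat_lit 0x38112) (nat_lit 0) (p (nat_lit 0x28092) (nat_lit 0) (p (nat_lit 0x18012) (nat_lit 0) pn)))))))))))))))) :=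
  Cl.node (nat_lit 0x41) (nat_lit 2) (by decide +kernel) (ClAll.succ (ClAll.succ ClAll.zero n80) n81)

def n83 : Cl (O (nat_lit 1)) (R (nat_lit 131281))
    (p (nat_lit 0x8878706861a) (nat_lit 0) (p (nat_lit 0x800080686058a) (nat_lit 0) (p (nat_lit 0x706058502) (nat_lit 0) (p (nat_lit 0x605850482) (nat_lit 0) (p (nat_lit 0x160014) (nat_lit 0) (p (nat_lit 0x16000c) (nat_lit 0) (p (nat_lit 0x68512) (nat_lit 0) (p (nat_lit 0x58492) (nat_lit 0) (p (nat_lit 0x48412) (nat_lit 0) (p (nat_lit 0x50312) (nat_lit 0) (p (nat_lit 0x40292) (nat_lit 0) (p (nat_lit 0x30212) (nat_lit 0) (p (nat_lit 0x38112) (nat_lit 0) (p (nat_lit 0x28092) (nat_lit 0) (p (nat_lit 0x18012) (nat_lit 0) pn))))))))))))))) :=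
  Cl.node (nat_lit 0x9088787069a) (nat_lit 1) (by decide +kernel) (ClAll.succ ClAll.zero n82)

def n84 : Cl (O (nat_lit 1)) (R (nat_lit 131281))
    (p (nat_lit 0x800080686058a) (nat_lit 0) (p (nat_lit 0x706058502) (nat_lit 0) (p (nat_lit 0x605850482) (nat_lit 0) (p (nat_lit 0x160014) (nat_lit 0) (p (nat_lit 0x16000c) (nat_lit 0) (p (nat_lit 0x68512) (nat_lit 0) (p (nat_lit 0x58492) (nat_lit 0) (p (nat_lit 0x48412) (nat_lit 0) (p (nat_lit 0x50312) (nat_lit 0) (p (nat_lit 0x40292) (nat_lit 0) (p (nat_lit 0x30212) (nat_lit 0) (p (nat_lit 0x38112) (nat_lit 0) (p (nat_lit 0x28092) (nat_lit 0) (p (nat_lit 0x18012) (nat_lit 0) pn)))))))))))))) :=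
  Cl.node (nat_lit 0x8878706861a) (nat_lit 1) (by decide +kernel) (ClAll.succ ClAll.zero n83)

def n85 : Cl (O (nat_lit 1)) (R (nat_lit 131281))
    (p (nat_lit 0x706058502) (nat_lit 0) (p (nat_lit 0x605850482) (nat_lit 0) (p (nat_lit 0x160014) (nat_lit 0) (p (nat_lit 0x16000c) (nat_lit 0) (p (nat_lit 0x68512) (nat_lit 0) (p (nat_lit 0x58492) (nat_lit 0) (p (nat_lit 0x48412) (nat_lit 0) (p (nat_lit 0x50312) (nat_lit 0) (p (nat_lit 0x40292) (nat_lit 0) (p (nat_lit 0x30212) (nat_lit 0) (p (nat_lit 0x38112) (nat_lit 0) (p (nat_lit 0x28092) (nat_lit 0) (p (nat_lit 0x18012) (nat_lit 0) pn))))))))))))) :=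
  Cl.node (nat_lit 0x800080686058a) (nat_lit 1) (by decide +kernel) (ClAll.succ ClAll.zero n84)

def n86 : Cl (O (nat_lit 1)) (R (nat_lit 131281))
    (p (nat_lit 0x605850482) (nat_lit 0) (p (nat_lit 0x160014) (nat_lit 0) (p (nat_lit 0x16000c) (nat_lit 0) (p (nat_lit 0x68512) (nat_lit 0) (p (nat_lit 0x58492) (nat_lit 0) (p (nat_lit 0x48412) (nat_lit 0) (p (nat_lit 0x50312) (nat_lit 0) (p (nat_lit 0x40292) (nat_lit 0) (p (nat_lit 0x30212) (nat_lit 0) (p (nat_lit 0x38112) (nat_lit 0) (p (nat_lit 0x28092) (nat_lit 0) (p (nat_lit 0x18012) (nat_lit 0) pn)))))))))))) :=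
  Cl.node (nat_lit 0x706058502) (nat_lit 1) (by decide +kernel) (ClAll.succ ClAll.zero n85)

def n87 : Cl (O (nat_lit 1)) (R (nat_lit 131281))
    (p (nat_lit 0x160014) (nat_lit 0) (p (nat_lit 0x16000c) (nat_lit 0) (p (nat_lit 0x68512) (nat_lit 0) (p (nat_lit 0x58492) (nat_lit 0) (p (nat_lit 0x48412) (nat_lit 0) (p (nat_lit 0x50312) (nat_lit 0) (p (nat_lit 0x40292) (nat_lit 0) (p (nat_lit 0x30212) (nat_lit 0) (p (nat_lit 0x38112) (nat_lit 0) (p (nat_lit 0x28092) (nat_lit 0) (p (nat_lit 0x18012) (nat_lit 0) pn))))))))))) :=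
  Cl.node (nat_lit 0x605850482) (nat_lit 1) (by decide +kernel) (ClAll.succ ClAll.zero n86)

def n88 : Cl (O (nat_lit 1)) (R (nat_lit 131281))
    (p (nat_lit 0x16000c) (nat_lit 0) (p (nat_lit 0x68512) (nat_lit 0) (p (nat_lit 0x58492) (nat_lit 0) (p (nat_lit 0x48412) (nat_lit 0) (p (nat_lit 0x50312) (nat_lit 0) (p (nat_lit 0x40292) (nat_lit 0) (p (nat_lit 0x30212) (nat_lit 0) (p (nat_lit 0x38112) (nat_lit 0) (p (nat_lit 0x28092) (nat_lit 0) (p (nat_lit 0x18012) (nat_lit 0) pn)))))))))) :=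
  Cl.node (nat_lit 0x160014) (nat_lit 2) (by decide +kernel) (ClAll.succ (ClAll.succ ClAll.zero n87) s84)

def n89 : Cl (O (nat_lit 1)) (R (nat_lit 131281))
    (p (nat_lit 0x68512) (nat_lit 0) (p (nat_lit 0x58492) (nat_lit 0) (p (nat_lit 0x48412) (nat_lit 0) (p (nat_lit 0x50312) (nat_lit 0) (p (nat_lit 0x40292) (nat_lit 0) (p (nat_lit 0x30212) (nat_lit 0) (p (nat_lit 0x38112) (nat_lit 0) (p (nat_lit 0x28092) (nat_lit 0) (p (nat_lit 0x18012) (nat_lit 0) pn))))))))) :=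
  Cl.node (nat_lit 0x16000c) (nat_lit 2) (by decide +kernel) (ClAll.succ (ClAll.succ ClAll.zero n88) s85)

def n90 : Cl (O (nat_lit 1)) (R (nat_lit 131281))
    (p (nat_lit 0x58492) (nat_lit 0) (p (nat_lit 0x48412) (nat_lit 0) (p (nat_lit 0x50312) (nat_lit 0) (p (nat_lit 0x40292) (nat_lit 0) (p (nat_lit 0x30212) (nat_lit 0) (p (nat_lit 0x38112) (nat_lit 0) (p (nat_lit 0x28092) (nat_lit 0) (p (nat_lit 0x18012) (nat_lit 0) pn)))))))) :=
  Cl.node (nat_lit 0x68512) (nat_lit 1) (by decide +kernel) (ClAll.succ ClAll.zero n89)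

def n91 : Cl (O (nat_lit 1)) (R (nat_lit 131281))
    (p (nat_lit 0x48412) (nat_lit 0) (p (nat_lit 0x50312) (nat_lit 0) (p (nat_lit 0x40292) (nat_lit 0) (p (nat_lit 0x30212) (nat_lit 0) (p (nat_lit 0x38112) (nat_lit 0) (p (nat_lit 0x28092) (nat_lit 0) (p (nat_lit 0x18012) (nat_lit 0) pn))))))) :=
  Cl.node (nat_lit 0x58492) (nat_lit 1) (by decide +kernel) (ClAll.succ ClAll.zero n90)

def n92 : Cl (O (nat_lit 1)) (R (nat_lit 131281))
    (p (nat_lit 0x50312) (nat_lit 0) (p (nat_lit 0x40292) (nat_lit 0) (p (nat_lit 0x30212) (nat_lit 0) (p (nat_lit 0x38112) (nat_lit 0) (p (nat_lit 0x28092) (nat_lit 0) (p (nat_lit 0x18012) (nat_lit 0) pn)))))) :=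
  Cl.node (nat_lit 0x48412) (nat_lit 1) (by decide +kernel) (ClAll.succ ClAll.zero n91)

def n93 : Cl (O (nat_lit 1)) (R (nat_lit 131281))
    (p (nat_lit 0x40292) (nat_lit 0) (p (nat_lit 0x30212) (nat_lit 0) (p (nat_lit 0x38112) (nat_lit 0) (p (nat_lit 0x28092) (nat_lit 0) (p (nat_lit 0x18012) (nat_lit 0) pn))))) :=
  Cl.node (nat_lit 0x50312) (nat_lit 1) (by decide +kernel) (ClAll.succ ClAll.zero n92)

def n94 : Cl (O (nat_lit 1)) (R (nat_lit 131281))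
    (p (nat_lit 0x30212) (nat_lit 0) (p (nat_lit 0x38112) (nat_lit 0) (p (nat_lit 0x28092) (nat_lit 0) (p (nat_lit 0x18012) (nat_lit 0) pn)))) :=
  Cl.node (nat_lit 0x40292) (nat_lit 1) (by decide +kernel) (ClAll.succ ClAll.zero n93)

def n95 : Cl (O (nat_lit 1)) (R (nat_lit 131281))
    (p (nat_lit 0x38112) (nat_lit 0) (p (nat_lit 0x28092) (nat_lit 0) (p (nat_lit 0x18012) (nat_lit 0) pn))) :=
  Cl.node (nat_lit 0x30212) (nat_lit 1) (by decide +kernel) (ClAll.succ ClAll.zero n94)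

def n96 : Cl (O (nat_lit 1)) (R (nat_lit 131281))
    (p (nat_lit 0x28092) (nat_lit 0) (p (nat_lit 0x18012) (nat_lit 0) pn)) :=
  Cl.node (nat_lit 0x38112) (nat_lit 1) (by decide +kernel) (ClAll.succ ClAll.zero n95)

def n97 : Cl (O (nat_lit 1)) (R (nat_lit 131281))
    (p (nat_lit 0x18012) (nat_lit 0) pn) :=
  Cl.node (nat_lit 0x28092) (nat_lit 1) (by decide +kernel) (ClAll.succ ClAll.zero n96)

def n98 : Cl (O (nat_lit 1)) (R (nat_lit 131281))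
    pn :=
  Cl.node (nat_lit 0x18012) (nat_lit 1) (by decide +kernel) (ClAll.succ ClAll.zero n97)

theorem top : Cl (O (nat_lit 1)) (R (nat_lit 131281)) pn := n98

end Pool.Agent.Gen.F5.X123CCDm1
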